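import Pool.Agent.W5h26.HH.Glo

/-!
# Hypersurfaces which contain coordinate subspaces
-/

set_option autoImplicit false
set_option linter.unusedSectionVars false
set_option maxHeartbeats 400000

open Finset

namespace Pool.Agent.W5h26.HH

/-- the monomials of degree `d` which are not supported in one of the sets -/
def MS {c M : ℕ} (d : ℕ) (S : Fin c → Finset (Fin M)) : Set (Fin M →₀ ℕ) :=
  {s | s.degree = d ∧ ∀ a, ¬ s.support ⊆ S a}

section mon

variable {k : Type} [Field k] {M c : ℕ}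

/-- the values of the monomials -/
noncomputable def mv (s : Fin M →₀ ℕ) (u : Fin M → k) : k := s.prod fun i e => u i ^ e

theorem mv_ne (s : Fin M →₀ ℕ) (u : Fin M → k) : mv s u ≠ 0 ↔ ∀ i ∈ s.support, u i ≠ 0 := by
  unfold mv Finsupp.prod
  rw [Finset.prod_ne_zero_iff]
  refine forall₂_congr fun i hi => ?_
  rw [Finsupp.mem_support_iff] at hi
  exact pow_ne_zero_iff hi

theorem mv_add (s t : Fin M →₀ ℕ) (u : Fin M → k) : mv (s + t) u = mv s u * mv t u := by
  unfold mv
  exact Finsupp.prod_add_index' (fun i => pow_zero _) fun i a b => pow_add _ _ _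

theorem mv_single (l : Fin M) (u : Fin M → k) : mv (Finsupp.single l 1) u = u l := by
  unfold mv
  rw [Finsupp.prod_single_index (h := fun i e => u i ^ e) (pow_zero _), pow_one]

/-- a monomial -/
noncomputable def s₀ (f : Fin c → Fin M) (l : Fin M) (D : ℕ) : Fin M →₀ ℕ :=
  ∑ a, Finsupp.single (f a) 1 + Finsupp.single l D

theorem s₀_degree (f : Fin c → Fin M) (l : Fin M) (D : ℕ) : (s₀ f l D).degree = c + D := by
  unfold s₀
  rw [map_add, map_sum, Finsupp.degree_single]
  simp only [Finsupp.degree_single]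
  simp

theorem s₀_mem (f : Fin c → Fin M) (l : Fin M) (D : ℕ) (a : Fin c) : f a ∈ (s₀ f l D).support := by
  classical
  rw [Finsupp.mem_support_iff]
  unfold s₀
  rw [Finsupp.add_apply, Finsupp.finsetSum_apply]
  have h1 : (Finsupp.single (f a) 1 : Fin M →₀ ℕ) (f a) ≤ ∑ b, (Finsupp.single (f b) 1) (f a) :=
    Finset.single_le_sum (f := fun b => (Finsupp.single (f b) 1 : Fin M →₀ ℕ) (f a))
      (fun _ _ => Nat.zero_le _) (Finset.mem_univ a)
  rw [Finsupp.single_eq_same] at h1
  omega

theorem s₀_supp {f : Fin c → Fin M} {l : Fin M} {D : ℕ} {u : Fin M → k} (hf : ∀ a, u (f a) ≠ 0)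
    (hl : u l ≠ 0) : mv (s₀ f l D) u ≠ 0 := by
  classical
  rw [mv_ne]
  intro i hi
  rw [Finsupp.mem_support_iff] at hi
  by_contra h0
  apply hi
  unfold s₀
  rw [Finsupp.add_apply, Finsupp.finsetSum_apply, Finsupp.single_apply, if_neg, add_zero]
  · refine Finset.sum_eq_zero fun a _ => ?_
    rw [Finsupp.single_apply, if_neg]
    rintro rfl
    exact hf a h0
  · rintro rfl
    exact hl h0

end mon

section base

variable {k : Type} [Field k] {M c d m : ℕ} {S : Fin c → Finset (Fin M)}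

/-- the system of the monomials -/
noncomputable def gm (e : Fin m ≃ MS d S) (u : Fin M → k) : Fin m → k := fun i => mv (e i).1 u

theorem gm_ne {e : Fin m ≃ MS d S} (hcd : c + 1 ≤ d) {u : Fin M → k} :
    gm e u ≠ 0 ↔ u ≠ 0 ∧ ∀ a, ∃ i, i ∉ S a ∧ u i ≠ 0 := by
  constructor
  · intro h
    obtain ⟨i, hi⟩ := Function.ne_iff.1 h
    have h1 : mv (e i).1 u ≠ 0 := hi
    rw [mv_ne] at h1
    obtain ⟨h2, h3⟩ := (e i).2
    refine ⟨?_, fun a => ?_⟩
    · rintro rfl
      have h4 : ((e i).1 : Fin M →₀ ℕ) ≠ 0 := by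
        intro h4
        rw [h4, map_zero] at h2
        omega
      obtain ⟨l, hl⟩ := Finsupp.support_nonempty_iff.2 h4
      exact h1 l hl rfl
    · obtain ⟨l, hl, hl2⟩ := Finset.not_subset.1 (h3 a)
      exact ⟨l, hl2, h1 l hl⟩
  · rintro ⟨h1, h2⟩
    choose f hf1 hf2 using h2
    obtain ⟨l, hl⟩ := Function.ne_iff.1 h1
    have hmem : s₀ f l (d - c) ∈ MS d S := by
      refine ⟨?_, fun a ha => hf1 a (ha (s₀_mem f l _ a))⟩
      rw [s₀_degree]
      omega
    rw [Function.ne_iff]
    refine ⟨e.symm ⟨_, hmem⟩, ?_⟩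
    show mv (e (e.symm ⟨_, hmem⟩)).1 u ≠ 0
    rw [Equiv.apply_symm_apply]
    exact s₀_supp hf2 hl

theorem gm_sep {e : Fin m ≃ MS d S} (hcd : c + 1 ≤ d) : Sep (gm (k := k) e) := by
  intro u w hu b hb hw
  obtain ⟨h1, h2⟩ := (gm_ne hcd).1 hu
  choose f hf1 hf2 using h2
  obtain ⟨l, hl⟩ := Function.ne_iff.1 h1
  have hl' : u l ≠ 0 := hl
  have hmem : ∀ i, s₀ f l (d - 1 - c) + Finsupp.single i 1 ∈ MS d S := by
    intro i
    refine ⟨?_, fun a ha => hf1 a (ha ?_)⟩
    · rw [map_add, s₀_degree, Finsupp.degree_single]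
      omega
    · have := s₀_mem f l (d - 1 - c) a
      rw [Finsupp.mem_support_iff] at this ⊢
      rw [Finsupp.add_apply]
      omega
  have key : ∀ i, mv (s₀ f l (d - 1 - c)) w * w i = b * (mv (s₀ f l (d - 1 - c)) u * u i) := by
    intro i
    have h3 := congrFun hw (e.symm ⟨_, hmem i⟩)
    have h4 : mv (e (e.symm ⟨_, hmem i⟩)).1 w = b * mv (e (e.symm ⟨_, hmem i⟩)).1 u := h3
    rw [Equiv.apply_symm_apply] at h4
    rw [mv_add, mv_single, mv_add, mv_single] at h4
    exact h4
  have hu0 : mv (s₀ f l (d - 1 - c)) u ≠ 0 := s₀_supp hf2 hl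
  have hw0 : mv (s₀ f l (d - 1 - c)) w ≠ 0 := by
    intro h0
    have h3 := key l
    rw [h0, zero_mul] at h3
    exact mul_ne_zero hb (mul_ne_zero hu0 hl') h3.symm
  refine ⟨b * mv (s₀ f l (d - 1 - c)) u / mv (s₀ f l (d - 1 - c)) w, ?_⟩
  funext i
  have h3 := key i
  rw [Pi.smul_apply, smul_eq_mul, div_mul_eq_mul_div, eq_div_iff hw0]
  linear_combination h3

end base

section count

variable {k : Type} [Field k] [Fintype k] [DecidableEq k] {M c d m : ℕ}
  {S : Fin c → Finset (Fin M)}

/-- the nonzero vectors supported in a set -/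
noncomputable def EE (k : Type) [Field k] [Fintype k] [DecidableEq k] {M : ℕ} (A : Finset (Fin M)) :
    Finset (Fin M → k) := Finset.univ.filter fun u => u ≠ 0 ∧ ∀ i, i ∉ A → u i = 0

theorem card_EE (A : Finset (Fin M)) : (EE k A).card + 1 = Fintype.card k ^ A.card := by
  classical
  have h1 : insert (0 : Fin M → k) (EE k A) =
      Fintype.piFinset fun i => if i ∈ A then Finset.univ else {0} := by
    ext u
    simp only [EE, Finset.mem_insert, Finset.mem_filter, Finset.mem_univ, true_and,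
      Fintype.mem_piFinset]
    constructor
    · rintro (rfl | ⟨-, h⟩) i
      · split_ifs <;> simp
      · split_ifs with h1
        · exact Finset.mem_univ _
        · exact Finset.mem_singleton.2 (h i h1)
    · intro h
      by_cases h0 : u = 0
      · exact Or.inl h0
      · refine Or.inr ⟨h0, fun i hi => ?_⟩
        have := h i
        rw [if_neg hi] at this
        exact Finset.mem_singleton.1 this
  have h2 : (0 : Fin M → k) ∉ EE k A := by
    simp [EE]
  rw [← Finset.card_insert_of_notMem h2, h1, Fintype.card_piFinset]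
  have h3 : ∀ i, (if i ∈ A then (Finset.univ : Finset k) else {0}).card =
      if i ∈ A then Fintype.card k else 1 := by
    intro i
    split_ifs
    · exact Finset.card_univ
    · exact Finset.card_singleton _
  simp only [h3]
  rw [Finset.prod_ite_mem, Finset.univ_inter, Finset.prod_const]

theorem inter_EE (A B : Finset (Fin M)) : EE k A ∩ EE k B = EE k (A ∩ B) := by
  classical
  ext u
  simp only [EE, Finset.mem_inter, Finset.mem_filter, Finset.mem_univ, true_and]
  constructor
  · rintro ⟨⟨h0, h1⟩, -, h2⟩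
    refine ⟨h0, fun i hi => ?_⟩
    by_cases hA : i ∈ A
    · exact h2 i fun hB => hi ⟨hA, hB⟩
    · exact h1 i hA
  · rintro ⟨h0, h1⟩
    exact ⟨⟨h0, fun i hi => h1 i fun h => hi h.1⟩, h0, fun i hi => h1 i fun h => hi h.2⟩

/-- the union -/
noncomputable def UU (k : Type) [Field k] [Fintype k] [DecidableEq k] {M c : ℕ}
    (S : Fin c → Finset (Fin M)) : Finset (Fin M → k) := Finset.univ.biUnion fun a => EE k (S a)

theorem card_UU_le {r : ℕ} (hS : ∀ a, (S a).card = r) :
    ((UU k S).card : ℝ) ≤ c * (qq k ^ r - 1) := by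
  classical
  have h1 : (UU k S).card ≤ ∑ a, (EE k (S a)).card := Finset.card_biUnion_le
  have h2 : ((UU k S).card : ℝ) ≤ ∑ a, ((EE k (S a)).card : ℝ) := by exact_mod_cast h1
  refine h2.trans (le_of_eq ?_)
  have h3 : ∀ a, ((EE k (S a)).card : ℝ) = qq k ^ r - 1 := by
    intro a
    have h4 := card_EE (k := k) (S a)
    rw [hS a] at h4
    have h5 : ((EE k (S a)).card : ℝ) + 1 = (Fintype.card k : ℝ) ^ r := by exact_mod_cast h4
    unfold qq
    linarith
  simp only [h3]
  rw [Finset.sum_const, Finset.card_univ, Fintype.card_fin, nsmul_eq_mul]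

theorem le_card_UU {r : ℕ} (hS : ∀ a, (S a).card = r + 1) (hinj : Function.Injective S) :
    (c : ℝ) * (qq k ^ (r + 1) - 1) - c ^ 2 * qq k ^ r ≤ ((UU k S).card : ℝ) := by
  classical
  have hq := qq_two (k := k)
  set E' : Fin c → Finset (Fin M → k) := fun a =>
    EE k (S a) \ (Finset.univ.erase a).biUnion fun b => EE k (S b) with hE'
  have h1 : (Finset.univ.biUnion E') ⊆ UU k S := by
    intro u hu
    obtain ⟨a, ha, hu⟩ := Finset.mem_biUnion.1 hu
    exact Finset.mem_biUnion.2 ⟨a, ha, (Finset.mem_sdiff.1 hu).1⟩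
  have h2 : (Finset.univ.biUnion E').card = ∑ a, (E' a).card := by
    refine Finset.card_biUnion fun a _ b _ hab => ?_
    show Disjoint (E' a) (E' b)
    rw [Finset.disjoint_left]
    intro u hu hu'
    obtain ⟨-, h3⟩ := Finset.mem_sdiff.1 hu
    obtain ⟨h4, -⟩ := Finset.mem_sdiff.1 hu'
    exact h3 (Finset.mem_biUnion.2 ⟨b, Finset.mem_erase.2 ⟨fun h => hab h.symm,
      Finset.mem_univ _⟩, h4⟩)
  have h3 : ∀ a, qq k ^ (r + 1) - 1 - c * qq k ^ r ≤ ((E' a).card : ℝ) := by
    intro a
    have h4 := card_EE (k := k) (S a)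
    rw [hS a] at h4
    have h5 : ((EE k (S a)).card : ℝ) + 1 = qq k ^ (r + 1) := by
      unfold qq
      exact_mod_cast h4
    have h6 : (EE k (S a)).card ≤ (E' a).card +
        (EE k (S a) ∩ (Finset.univ.erase a).biUnion fun b => EE k (S b)).card := by
      rw [hE']
      rw [Finset.card_sdiff_add_card_inter]
    have h7 : (EE k (S a) ∩ (Finset.univ.erase a).biUnion fun b => EE k (S b)).card ≤
        ∑ b ∈ Finset.univ.erase a, (EE k (S a ∩ S b)).card := by
      rw [Finset.inter_biUnion]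
      refine Finset.card_biUnion_le.trans (le_of_eq (Finset.sum_congr rfl fun b _ => ?_))
      rw [inter_EE]
    have h8 : ∀ b ∈ Finset.univ.erase a, ((EE k (S a ∩ S b)).card : ℝ) ≤ qq k ^ r := by
      intro b hb
      have h9 := card_EE (k := k) (S a ∩ S b)
      have h10 : (S a ∩ S b).card ≤ r := by
        by_contra hlt
        push Not at hlt
        have e1 : S a ∩ S b = S a :=
          Finset.eq_of_subset_of_card_le Finset.inter_subset_left (by rw [hS a]; omega)
        have e2 : S a ∩ S b = S b :=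
          Finset.eq_of_subset_of_card_le Finset.inter_subset_right (by rw [hS b]; omega)
        exact (Finset.mem_erase.1 hb).1 (hinj (e2.symm.trans e1))
      have h11 : ((EE k (S a ∩ S b)).card : ℝ) + 1 = qq k ^ (S a ∩ S b).card := by
        unfold qq
        exact_mod_cast h9
      have h12 : qq k ^ (S a ∩ S b).card ≤ qq k ^ r := pow_le_pow_right₀ (by linarith) h10
      linarith
    have h9 : (∑ b ∈ Finset.univ.erase a, ((EE k (S a ∩ S b)).card : ℝ)) ≤ c * qq k ^ r := by
      refine (Finset.sum_le_card_nsmul _ _ _ h8).trans ?_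
      rw [nsmul_eq_mul]
      refine mul_le_mul_of_nonneg_right ?_ (by positivity)
      have : (Finset.univ.erase a).card ≤ c := by
        refine (Finset.card_le_univ _).trans (le_of_eq (Fintype.card_fin c))
      exact_mod_cast this
    have h10 : ((EE k (S a)).card : ℝ) ≤ (E' a).card +
        ∑ b ∈ Finset.univ.erase a, ((EE k (S a ∩ S b)).card : ℝ) := by
      exact_mod_cast h6.trans (Nat.add_le_add_left h7 _)
    linarith
  have h4 : (∑ a, ((E' a).card : ℝ)) ≤ ((UU k S).card : ℝ) := by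
    have := h2 ▸ Finset.card_le_card h1
    exact_mod_cast this
  have h5 := Finset.sum_le_sum fun a (_ : a ∈ Finset.univ) => h3 a
  rw [Finset.sum_const, Finset.card_univ, Fintype.card_fin, nsmul_eq_mul] at h5
  calc (c : ℝ) * (qq k ^ (r + 1) - 1) - c ^ 2 * qq k ^ r =
      c * (qq k ^ (r + 1) - 1 - c * qq k ^ r) := by ring
    _ ≤ _ := h5.trans h4

/-- the base locus -/
theorem base_eq {e : Fin m ≃ MS d S} (hcd : c + 1 ≤ d) :
    (Finset.univ.filter fun u : Fin M → k => u ≠ 0 ∧ gm e u = 0) = UU k S := by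
  classical
  ext u
  simp only [UU, EE, Finset.mem_filter, Finset.mem_univ, true_and, Finset.mem_biUnion]
  have h := gm_ne (k := k) (e := e) hcd (u := u)
  constructor
  · rintro ⟨h0, h1⟩
    have h2 : ¬ (u ≠ 0 ∧ ∀ a, ∃ i, i ∉ S a ∧ u i ≠ 0) := fun h3 => (h.2 h3) h1
    push Not at h2
    obtain ⟨a, ha⟩ := h2 h0
    exact ⟨a, h0, ha⟩
  · rintro ⟨a, h0, ha⟩
    refine ⟨h0, ?_⟩
    by_contra h1
    obtain ⟨-, h2⟩ := h.1 h1
    obtain ⟨i, hi, hi'⟩ := h2 a
    exact hi' (ha i hi)

/-- the number of the points of the base locus -/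
theorem base_card {r : ℕ} (hS : ∀ a, (S a).card = r + 1) (hinj : Function.Injective S) :
    |((UU k S).card : ℝ) / (qq k - 1) / qq k ^ (r + 1) - c / qq k| ≤
      (2 * c + 2 * c ^ 2) / qq k ^ 2 := by
  have hq := qq_two (k := k)
  have hq0 := qq_pos (k := k)
  have h1 : 0 < qq k - 1 := by linarith
  have hu := card_UU_le (k := k) hS
  have hl := le_card_UU (k := k) hS hinj
  have hr : 1 ≤ qq k ^ r := one_le_pow₀ (by linarith)
  have hr' : qq k ^ (r + 1) = qq k * qq k ^ r := by ring
  have hc : (0 : ℝ) ≤ c := Nat.cast_nonneg _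
  rw [hr'] at hu hl
  rw [div_div, div_sub_div _ _ (by positivity) hq0.ne', abs_div,
    abs_of_pos (show 0 < (qq k - 1) * qq k ^ (r + 1) * qq k by positivity),
    div_le_div_iff₀ (by positivity) (by positivity), hr']
  set N : ℝ := ((UU k S).card : ℝ) with hN
  set Q := qq k with hQ
  set R := Q ^ r with hR
  have e1 : |N * Q - (Q - 1) * (Q * R) * c| = Q * |N - (Q - 1) * R * c| := by
    rw [← abs_of_pos hq0, ← abs_mul]
    congr 1
    rw [abs_of_pos hq0]
    ring
  rw [e1]
  have e2 : |N - (Q - 1) * R * c| ≤ (c + c ^ 2) * R := by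
    rw [abs_le]
    constructor
    · nlinarith
    · nlinarith [mul_nonneg hc (show (0 : ℝ) ≤ R by linarith), mul_nonneg (sq_nonneg (c : ℝ))
        (show (0 : ℝ) ≤ R by linarith)]
  have e3 : 0 ≤ (c + c ^ 2 : ℝ) * R := by positivity
  calc Q * |N - (Q - 1) * R * c| * Q ^ 2 ≤ Q * ((c + c ^ 2) * R) * Q ^ 2 := by gcongr
    _ = (c + c ^ 2) * R * Q ^ 2 * Q := by ring
    _ ≤ (c + c ^ 2) * R * Q ^ 2 * (2 * (Q - 1)) :=
        mul_le_mul_of_nonneg_left (by linarith) (by positivity)
    _ = _ := by ring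

end count

end Pool.Agent.W5h26.HH
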