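import Pool.Agent.W5h26.HH.Loc

/-!
# Linear systems of hypersurfaces over the integers of a number field
-/

set_option autoImplicit false
set_option linter.unusedSectionVars false
set_option maxHeartbeats 400000

open Filter Topology Finset
open NumberField IsDedekindDomain Pool.Agent.H921R2.TatePole

namespace Pool.Agent.W5h26.HH

open Pool.Agent.W5h26.EP Pool.Agent.W5h26.AO Pool.Agent.W5h26.CL Pool.Agent.W5h26.LD

variable {K : Type} [Field K] [NumberField K] {m j : ℕ}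

/-- the values of the polynomials modulo `v` -/
noncomputable def gv (G : Fin m → MvPolynomial (Fin (2 * j + 2)) (𝓞 K))
    (v : HeightOneSpectrum (𝓞 K)) (u : Fin (2 * j + 2) → 𝓞 K ⧸ v.asIdeal) :
    Fin m → 𝓞 K ⧸ v.asIdeal :=
  fun i => MvPolynomial.eval₂ (Ideal.Quotient.mk v.asIdeal) u (G i)

/-- the member of the linear system -/
noncomputable def mem (G : Fin m → MvPolynomial (Fin (2 * j + 2)) (𝓞 K)) (h : Fin m → 𝓞 K) :
    MvPolynomial (Fin (2 * j + 2)) (𝓞 K) := ∑ i, MvPolynomial.C (h i) * G i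

theorem eval_mem (G : Fin m → MvPolynomial (Fin (2 * j + 2)) (𝓞 K)) (h : Fin m → 𝓞 K)
    (v : HeightOneSpectrum (𝓞 K)) (u : Fin (2 * j + 2) → 𝓞 K ⧸ v.asIdeal) :
    MvPolynomial.eval₂ (Ideal.Quotient.mk v.asIdeal) u (mem G h) = rho v m h ⬝ᵥ gv G v u := by
  unfold mem
  rw [MvPolynomial.eval₂_sum]
  unfold dotProduct
  refine Finset.sum_congr rfl fun i _ => ?_
  rw [MvPolynomial.eval₂_mul, MvPolynomial.eval₂_C]
  rfl

/-- the number of the nonzero zeros modulo `v` -/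
noncomputable def zeros (F : MvPolynomial (Fin (2 * j + 2)) (𝓞 K)) (v : HeightOneSpectrum (𝓞 K)) :
    ℕ := Nat.card {u : Fin (2 * j + 2) → 𝓞 K ⧸ v.asIdeal // u ≠ 0 ∧
      MvPolynomial.eval₂ (Ideal.Quotient.mk v.asIdeal) u F = 0}

theorem qq_nm (v : HeightOneSpectrum (𝓞 K)) : qq (𝓞 K ⧸ v.asIdeal) = nm v := by
  unfold qq
  rw [card_q]

theorem zeros_eq (G : Fin m → MvPolynomial (Fin (2 * j + 2)) (𝓞 K)) (h : Fin m → 𝓞 K)
    (v : HeightOneSpectrum (𝓞 K)) [DecidableEq (𝓞 K ⧸ v.asIdeal)] :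
    (zeros (mem G h) v : ℝ) = sol (gv G v) (rho v m h) := by
  classical
  unfold zeros sol
  rw [Nat.cast_inj]
  refine Nat.subtype_card _ fun u => ?_
  rw [Finset.mem_filter, eval_mem]
  simp only [Finset.mem_univ, true_and]

/-- the local function; zero at the places in `S` -/
noncomputable def psv (G : Fin m → MvPolynomial (Fin (2 * j + 2)) (𝓞 K))
    (S : Set (HeightOneSpectrum (𝓞 K))) (v : HeightOneSpectrum (𝓞 K))
    (h : Fin m → 𝓞 K ⧸ v.asIdeal) : ℝ := by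
  classical
  exact if v ∈ S then 0 else ps (gv G v) h

theorem small_ps {G : Fin m → MvPolynomial (Fin (2 * j + 2)) (𝓞 K)}
    {S : Set (HeightOneSpectrum (𝓞 K))} (hS : ∀ v, v ∉ S → Sep (gv G v)) {C : ℝ} (hC : 0 ≤ C)
    (hb : ∀ v : HeightOneSpectrum (𝓞 K), v ∉ S →
      ((Nat.card {u : Fin (2 * j + 2) → 𝓞 K ⧸ v.asIdeal // u ≠ 0 ∧ gv G v u = 0} : ℝ) /
        ((nm v : ℝ) - 1)) ≤ C * (nm v : ℝ) ^ j) :
    Small (psv G S) j (15 + 2 * (1 + C) ^ 2) := by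
  classical
  have hbs : ∀ v : HeightOneSpectrum (𝓞 K), v ∉ S →
      bs (gv G v) ≤ C * qq (𝓞 K ⧸ v.asIdeal) ^ j := by
    intro v hv
    have h1 := hb v hv
    unfold bs
    rw [qq_nm]
    refine le_trans (le_of_eq ?_) h1
    congr 2
    symm
    refine Nat.subtype_card _ fun u => ?_
    unfold ZZ
    rw [Finset.mem_filter]
    simp only [Finset.mem_univ, true_and]
  refine ⟨by positivity, fun v q => ?_, fun v => ?_, fun v => ?_⟩
  · have hq := nm_pos v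
    unfold psv
    split_ifs with h
    · rw [abs_zero]
      positivity
    · refine (ps_bd (gv G v) q).trans ?_
      rw [qq_nm]
      refine mul_le_mul_of_nonneg_right ?_ (by positivity)
      nlinarith [sq_nonneg (1 + C)]
  · have hq := nm_pos v
    unfold psv
    split_ifs with h
    · unfold av
      simp only [Finset.sum_const_zero, zero_div, abs_zero]
      positivity
    · unfold av
      rw [ps_sum, ← qq_nm, mul_div_cancel_left₀ _ (by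
        rw [qq_nm]
        positivity)]
      refine (ps_mean hC (hbs v h)).trans (div_le_div_of_nonneg_right ?_ (by positivity))
      nlinarith
  · have hq := nm_pos v
    unfold psv
    split_ifs with h
    · unfold av
      simp only [ne_eq, OfNat.ofNat_ne_zero, not_false_eq_true, zero_pow, Finset.sum_const_zero,
        zero_div]
      positivity
    · unfold av
      have h1 := ps_sq (hS v h) hC (hbs v h)
      rw [qq_nm] at h1
      refine h1.trans (div_le_div_of_nonneg_right ?_ (by positivity))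
      linarith

theorem px_pi {X : ℝ} (hX : 0 ≤ X) : PX K X = PI K 0 ⌊X⌋₊ := by
  ext v
  rw [mem_PX, mem_PI, Nat.le_floor_iff hX]
  have := two_le_nm v
  constructor
  · exact fun h => ⟨by omega, h⟩
  · exact fun h => h.2

theorem px_sub (f : HeightOneSpectrum (𝓞 K) → ℝ) {X X' : ℝ} (hX : 0 ≤ X) (h : X ≤ X') :
    ∑ v ∈ PX K X', f v - ∑ v ∈ PX K X, f v = ∑ v ∈ PI K ⌊X⌋₊ ⌊X'⌋₊, f v := by
  rw [px_pi hX, px_pi (hX.trans h), sum_PI f (Nat.zero_le _) (Nat.floor_le_floor h)]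
  ring

/-- the tails of convergent sums -/
theorem tail {f : HeightOneSpectrum (𝓞 K) → ℝ} (hf : Summable f) {ε : ℝ} (hε : 0 < ε) :
    ∃ X₀ : ℝ, 2 ≤ X₀ ∧ ∀ X X' : ℝ, X₀ ≤ X → |∑ v ∈ PI K ⌊X⌋₊ ⌊X'⌋₊, f v| ≤ ε := by
  classical
  obtain ⟨s, hs⟩ := (summable_iff_vanishing_norm.1 hf) ε hε
  obtain ⟨M, hM⟩ := (s.image fun v => nm v).exists_le
  refine ⟨max 2 M, le_max_left _ _, fun X X' hX => ?_⟩
  refine (hs _ ?_).le
  rw [Finset.disjoint_left]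
  intro v hv hv'
  have h1 := mem_PI.1 hv
  have h2 := hM _ (Finset.mem_image_of_mem _ hv')
  have h3 : M ≤ ⌊X⌋₊ := Nat.le_floor ((le_max_right _ _).trans hX)
  omega

theorem mertens_cauchy {ε : ℝ} (hε : 0 < ε) : ∃ X₀ : ℝ, 2 ≤ X₀ ∧ ∀ X X' : ℝ, X₀ ≤ X → X₀ ≤ X' →
    |(MX K X' - MX K X) - (Real.log (Real.log X') - Real.log (Real.log X))| ≤ ε := by
  obtain ⟨M, hM⟩ := mertens_const K
  have h1 := Metric.tendsto_atTop.1 hM (ε / 2) (by positivity)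
  obtain ⟨X₀, h2⟩ := h1
  refine ⟨max 2 X₀, le_max_left _ _, fun X X' hX hX' => ?_⟩
  have h3 := h2 X ((le_max_right _ _).trans hX)
  have h4 := h2 X' ((le_max_right _ _).trans hX')
  rw [Real.dist_eq] at h3 h4
  have e : (MX K X' - MX K X) - (Real.log (Real.log X') - Real.log (Real.log X)) =
      (MX K X' - Real.log (Real.log X') - M) - (MX K X - Real.log (Real.log X) - M) := by ring
  rw [e]
  refine (abs_sub _ _).trans ?_
  linarith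

/-- the sum of the traces -/
noncomputable def TX (F : MvPolynomial (Fin (2 * j + 2)) (𝓞 K)) (X : ℝ) : ℝ :=
  ∑ v ∈ PX K X, ((zeros F v : ℝ) / ((nm v : ℝ) - 1) - oth j (nm v)) / (nm v : ℝ) ^ (j + 1)

/-- the numbers of points of the base locus -/
noncomputable def bas (G : Fin m → MvPolynomial (Fin (2 * j + 2)) (𝓞 K))
    (v : HeightOneSpectrum (𝓞 K)) : ℝ :=
  (Nat.card {u : Fin (2 * j + 2) → 𝓞 K ⧸ v.asIdeal // u ≠ 0 ∧ gv G v u = 0} : ℝ) /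
    ((nm v : ℝ) - 1)

theorem bas_eq (G : Fin m → MvPolynomial (Fin (2 * j + 2)) (𝓞 K)) (v : HeightOneSpectrum (𝓞 K))
    [DecidableEq (𝓞 K ⧸ v.asIdeal)] : bs (gv G v) = bas G v := by
  classical
  unfold bs bas
  rw [qq_nm]
  congr 2
  symm
  refine Nat.subtype_card _ fun u => ?_
  unfold ZZ
  rw [Finset.mem_filter]
  simp only [Finset.mem_univ, true_and]

variable {κ : Type} [Fintype κ] [DecidableEq κ]

/-- **The law for the linear system.** -/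
theorem law (b : Module.Basis κ ℤ (𝓞 K)) {G : Fin m → MvPolynomial (Fin (2 * j + 2)) (𝓞 K)}
    {S : Set (HeightOneSpectrum (𝓞 K))} (hfin : S.Finite) (hS : ∀ v, v ∉ S → Sep (gv G v))
    {C : ℝ} (hC : 0 ≤ C) (hb : ∀ v : HeightOneSpectrum (𝓞 K), v ∉ S → bas G v ≤ C * (nm v : ℝ) ^ j)
    {ε : ℝ} (hε : 0 < ε) : ∃ X₀ : ℝ, 2 ≤ X₀ ∧ ∀ᶠ N : ℕ in atTop,
      rmean (bx b m N) (fun h => by
        classical
        exact if ∀ X X' : ℝ, X₀ ≤ X → X ≤ X' → X' ^ (2 * j + 5) ≤ N →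
          |(TX (mem G h) X' - TX (mem G h) X) - (∑ v ∈ PI K ⌊X⌋₊ ⌊X'⌋₊, (bas G v / (nm v : ℝ) ^ (j + 1) +
            1 / nm v))| ≤ ε then 0 else 1) ≤ ε := by
  classical
  obtain ⟨k₁, hk₁⟩ := maximal (small_ps hS hC hb) b (half_pos hε)
  obtain ⟨M, hM⟩ := (hfin.toFinset.image fun v => nm v).exists_le
  have h16 : ∀ k : ℕ, k < 16 ^ k := fun k => Nat.lt_pow_self (by norm_num)
  set k₀ := max k₁ (M + 1) with hk₀
  refine ⟨((16 ^ k₀ : ℕ) : ℝ), ?_, ?_⟩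
  · have h1 : 16 ^ 1 ≤ 16 ^ k₀ := Nat.pow_le_pow_right (by norm_num) (by omega)
    have h2 : (((16 : ℕ) ^ 1 : ℕ) : ℝ) ≤ ((16 ^ k₀ : ℕ) : ℝ) := by exact_mod_cast h1
    norm_num at h2 ⊢
    linarith
  filter_upwards [hk₁ k₀ (le_max_left _ _)] with N hN
  refine le_trans (rmean_mono fun h _ => ?_) (hN.trans (by linarith))
  split_ifs with h1 h2 h2
  · norm_num
  · norm_num
  · norm_num
  · exfalso
    apply h1
    push Not at h2
    intro X X' hX hXX' hX'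
    have hX0 : 0 ≤ X := (Nat.cast_nonneg _).trans hX
    have hfl : 16 ^ k₀ ≤ ⌊X⌋₊ := Nat.le_floor hX
    have hfl' : ⌊X⌋₊ ≤ ⌊X'⌋₊ := Nat.floor_le_floor hXX'
    have hpow : ∀ Y : ℝ, 0 ≤ Y → Y ≤ X' → ⌊Y⌋₊ ^ (2 * j + 5) ≤ N := by
      intro Y h0 hY
      have h3 : ((⌊Y⌋₊ : ℕ) : ℝ) ^ (2 * j + 5) ≤ N :=
        (pow_le_pow_left₀ (Nat.cast_nonneg _) ((Nat.floor_le h0).trans hY) _).trans hX'
      exact_mod_cast h3
    have a1 := h2 ⌊X⌋₊ hfl (hpow X hX0 hXX')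
    have a2 := h2 ⌊X'⌋₊ (hfl.trans hfl') (hpow X' (hX0.trans hXX') le_rfl)
    have e1 : (TX (mem G h) X' - TX (mem G h) X) - (∑ v ∈ PI K ⌊X⌋₊ ⌊X'⌋₊,
        (bas G v / (nm v : ℝ) ^ (j + 1) + 1 / nm v)) = SS (psv G S) ⌊X⌋₊ ⌊X'⌋₊ h := by
      unfold TX SS
      rw [px_sub _ hX0 hXX', ← Finset.sum_sub_distrib]
      refine Finset.sum_congr rfl fun v hv => ?_
      have hvS : v ∉ S := by
        intro hvS
        have h3 := hM _ (Finset.mem_image_of_mem _ (hfin.mem_toFinset.2 hvS))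
        have h4 := (mem_PI.1 hv).1
        have h5 := h16 k₀
        have h6 : M + 1 ≤ k₀ := le_max_right _ _
        omega
      unfold psv
      rw [if_neg hvS]
      unfold ps tr
      rw [← zeros_eq, bas_eq, qq_nm]
      ring
    rw [e1]
    have e2 := SS_add (psv G S) h hfl hfl'
    have e3 : SS (psv G S) ⌊X⌋₊ ⌊X'⌋₊ h = SS (psv G S) (16 ^ k₀) ⌊X'⌋₊ h -
        SS (psv G S) (16 ^ k₀) ⌊X⌋₊ h := by linarith
    rw [e3]
    refine (abs_sub _ _).trans ?_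
    linarith

/-- the law with a given main term -/
theorem law' (b : Module.Basis κ ℤ (𝓞 K)) {G : Fin m → MvPolynomial (Fin (2 * j + 2)) (𝓞 K)}
    {S : Set (HeightOneSpectrum (𝓞 K))} (hfin : S.Finite) (hS : ∀ v, v ∉ S → Sep (gv G v))
    {C : ℝ} (hC : 0 ≤ C) (hb : ∀ v : HeightOneSpectrum (𝓞 K), v ∉ S → bas G v ≤ C * (nm v : ℝ) ^ j)
    {ρ : ℝ → ℝ} (hρ : ∀ ε : ℝ, 0 < ε → ∃ X₀ : ℝ, 2 ≤ X₀ ∧ ∀ X X' : ℝ, X₀ ≤ X → X ≤ X' →
      |∑ v ∈ PI K ⌊X⌋₊ ⌊X'⌋₊, (bas G v / (nm v : ℝ) ^ (j + 1) + 1 / nm v) - (ρ X' - ρ X)| ≤ ε)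
    {ε : ℝ} (hε : 0 < ε) : ∃ X₀ : ℝ, 2 ≤ X₀ ∧ ∀ᶠ N : ℕ in atTop,
      rmean (bx b m N) (fun h => by
        classical
        exact if ∀ X X' : ℝ, X₀ ≤ X → X ≤ X' → X' ^ (2 * j + 5) ≤ N →
          |(TX (mem G h) X' - TX (mem G h) X) - (ρ X' - ρ X)| ≤ ε then 0 else 1) ≤ ε := by
  classical
  obtain ⟨X₁, h1, h2⟩ := law b hfin hS hC hb (half_pos hε)
  obtain ⟨X₂, h3, h4⟩ := hρ (ε / 2) (half_pos hε)
  refine ⟨max X₁ X₂, h1.trans (le_max_left _ _), ?_⟩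
  filter_upwards [h2] with N hN
  refine le_trans (rmean_mono fun h _ => ?_) (hN.trans (by linarith))
  split_ifs with h5 h6 h6
  · norm_num
  · norm_num
  · exfalso
    apply h5
    intro X X' hX hXX' hX'
    have a1 := h6 X X' ((le_max_left _ _).trans hX) hXX' hX'
    have a2 := h4 X X' ((le_max_right _ _).trans hX) hXX'
    have e : (TX (mem G h) X' - TX (mem G h) X) - (ρ X' - ρ X) =
        ((TX (mem G h) X' - TX (mem G h) X) - (∑ v ∈ PI K ⌊X⌋₊ ⌊X'⌋₊,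
        (bas G v / (nm v : ℝ) ^ (j + 1) + 1 / nm v))) +
        (∑ v ∈ PI K ⌊X⌋₊ ⌊X'⌋₊, (bas G v / (nm v : ℝ) ^ (j + 1) + 1 / nm v) -
          (ρ X' - ρ X)) := by ring
    rw [e]
    refine (abs_add_le _ _).trans ?_
    linarith
  · norm_num

/-- the main term in general -/
theorem main_gen (G : Fin m → MvPolynomial (Fin (2 * j + 2)) (𝓞 K)) {ε : ℝ} (hε : 0 < ε) :
    ∃ X₀ : ℝ, 2 ≤ X₀ ∧ ∀ X X' : ℝ, X₀ ≤ X → X ≤ X' →
      |∑ v ∈ PI K ⌊X⌋₊ ⌊X'⌋₊, (bas G v / (nm v : ℝ) ^ (j + 1) + 1 / nm v) -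
        ((Real.log (Real.log X') + ∑ v ∈ PX K X', bas G v / (nm v : ℝ) ^ (j + 1)) -
         (Real.log (Real.log X) + ∑ v ∈ PX K X, bas G v / (nm v : ℝ) ^ (j + 1)))| ≤ ε := by
  obtain ⟨X₀, h1, h2⟩ := mertens_cauchy (K := K) hε
  refine ⟨X₀, h1, fun X X' hX hXX' => ?_⟩
  have h3 := h2 X X' hX (hX.trans hXX')
  have hX0 : 0 ≤ X := by linarith
  have e1 := px_sub (fun v => bas G v / (nm v : ℝ) ^ (j + 1)) hX0 hXX'
  have e2 := px_sub (fun v : HeightOneSpectrum (𝓞 K) => (nm v : ℝ)⁻¹) hX0 hXX'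
  rw [Finset.sum_add_distrib]
  unfold MX at h3
  rw [e2] at h3
  have e3 : ∑ v ∈ PI K ⌊X⌋₊ ⌊X'⌋₊, bas G v / (nm v : ℝ) ^ (j + 1) +
      ∑ v ∈ PI K ⌊X⌋₊ ⌊X'⌋₊, 1 / (nm v : ℝ) -
        ((Real.log (Real.log X') + ∑ v ∈ PX K X', bas G v / (nm v : ℝ) ^ (j + 1)) -
         (Real.log (Real.log X) + ∑ v ∈ PX K X, bas G v / (nm v : ℝ) ^ (j + 1))) =
      ∑ v ∈ PI K ⌊X⌋₊ ⌊X'⌋₊, (nm v : ℝ)⁻¹ -
        (Real.log (Real.log X') - Real.log (Real.log X)) := by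
    simp only [one_div]
    linarith
  rw [e3]
  exact h3

/-- the main term for `c` components -/
theorem main_c {G : Fin m → MvPolynomial (Fin (2 * j + 2)) (𝓞 K)} {c D : ℝ} (hc : 0 ≤ c)
    (hD : ∀ v, |bas G v / (nm v : ℝ) ^ (j + 1) - c / nm v| ≤ D * (nm v : ℝ) ^ (-2 : ℝ)) {ε : ℝ}
    (hε : 0 < ε) :
    ∃ X₀ : ℝ, 2 ≤ X₀ ∧ ∀ X X' : ℝ, X₀ ≤ X → X ≤ X' →
      |∑ v ∈ PI K ⌊X⌋₊ ⌊X'⌋₊, (bas G v / (nm v : ℝ) ^ (j + 1) + 1 / nm v) -
        ((1 + c) * Real.log (Real.log X') - (1 + c) * Real.log (Real.log X))| ≤ ε := by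
  obtain ⟨X₁, h1, h2⟩ := mertens_cauchy (K := K) (show 0 < ε / (2 * (1 + c)) by positivity)
  have hsum : Summable fun v : HeightOneSpectrum (𝓞 K) => D * (nm v : ℝ) ^ (-2 : ℝ) :=
    (nm_summable (K := K) (show (1 : ℝ) < 2 by norm_num)).mul_left D
  obtain ⟨X₂, h3, h4⟩ := tail hsum (half_pos hε)
  refine ⟨max X₁ X₂, h1.trans (le_max_left _ _), fun X X' hX hXX' => ?_⟩
  have hX1 := (le_max_left X₁ X₂).trans hX
  have a1 := h2 X X' hX1 (hX1.trans hXX')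
  have a2 := h4 X X' ((le_max_right _ _).trans hX)
  have hX0 : 0 ≤ X := by linarith
  have e2 := px_sub (fun v : HeightOneSpectrum (𝓞 K) => (nm v : ℝ)⁻¹) hX0 hXX'
  unfold MX at a1
  rw [e2] at a1
  have e3 : ∑ v ∈ PI K ⌊X⌋₊ ⌊X'⌋₊, (bas G v / (nm v : ℝ) ^ (j + 1) + 1 / nm v) -
        ((1 + c) * Real.log (Real.log X') - (1 + c) * Real.log (Real.log X)) =
      ∑ v ∈ PI K ⌊X⌋₊ ⌊X'⌋₊, (bas G v / (nm v : ℝ) ^ (j + 1) - c / nm v) +
      (1 + c) * (∑ v ∈ PI K ⌊X⌋₊ ⌊X'⌋₊, (nm v : ℝ)⁻¹ -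
        (Real.log (Real.log X') - Real.log (Real.log X))) := by
    rw [Finset.sum_add_distrib, Finset.sum_sub_distrib]
    have : ∑ v ∈ PI K ⌊X⌋₊ ⌊X'⌋₊, c / (nm v : ℝ) = c * ∑ v ∈ PI K ⌊X⌋₊ ⌊X'⌋₊, (nm v : ℝ)⁻¹ := by
      rw [Finset.mul_sum]
      rfl
    rw [this]
    simp only [one_div]
    ring
  rw [e3]
  refine (abs_add_le _ _).trans ?_
  have f1 : |∑ v ∈ PI K ⌊X⌋₊ ⌊X'⌋₊, (bas G v / (nm v : ℝ) ^ (j + 1) - c / nm v)| ≤ ε / 2 := by
    refine (Finset.abs_sum_le_sum_abs _ _).trans ((Finset.sum_le_sum fun v _ => hD v).trans ?_)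
    exact (le_abs_self _).trans a2
  have f2 : |(1 + c) * (∑ v ∈ PI K ⌊X⌋₊ ⌊X'⌋₊, (nm v : ℝ)⁻¹ -
        (Real.log (Real.log X') - Real.log (Real.log X)))| ≤ ε / 2 := by
    rw [abs_mul, abs_of_pos (show 0 < 1 + c by positivity)]
    calc _ ≤ (1 + c) * (ε / (2 * (1 + c))) := mul_le_mul_of_nonneg_left a1 (by positivity)
      _ = ε / 2 := by field_simp
  linarith

end Pool.Agent.W5h26.HH
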