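import Pool.Agent.W5h26.HH.Sup

/-!
# The numbers of the zeros of the members of a linear system over a finite field
-/

set_option autoImplicit false
set_option linter.unusedSectionVars false
set_option maxHeartbeats 400000

open Finset

namespace Pool.Agent.W5h26.HH

section lin

variable {k : Type} [Field k] [Fintype k] [DecidableEq k] {m : ℕ}

theorem ker_card {r : ℕ} (x : Fin r → Fin m → k) (hx : LinearIndependent k x) :
    (Finset.univ.filter fun h : Fin m → k => ∀ i, h ⬝ᵥ x i = 0).card * Fintype.card k ^ r =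
      Fintype.card k ^ m := by
  classical
  set L := Matrix.mulVecLin (Matrix.of x) with hL
  have h1 := L.finrank_range_add_finrank_ker
  have h2 : Module.finrank k (LinearMap.range L) = r := by
    have := LinearIndependent.rank_matrix (M := Matrix.of x) hx
    rw [Fintype.card_fin] at this
    exact this
  rw [h2, Module.finrank_fin_fun] at h1
  have h3 : (Finset.univ.filter fun h : Fin m → k => ∀ i, h ⬝ᵥ x i = 0).card =
      Fintype.card (LinearMap.ker L) := by
    rw [← Fintype.card_coe]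
    refine Fintype.card_congr (Equiv.subtypeEquivRight fun h => ?_)
    rw [Finset.mem_filter, LinearMap.mem_ker, funext_iff]
    simp only [Finset.mem_univ, true_and]
    refine forall_congr' fun i => ?_
    rw [dotProduct_comm]
    rfl
  rw [h3, Module.card_eq_pow_finrank (K := k), ← pow_add, add_comm, h1]

/-- the number of elements -/
noncomputable def qq (k : Type) [Fintype k] : ℝ := (Fintype.card k : ℝ)

theorem qq_two : 2 ≤ qq k := by
  have h1 : 1 < Fintype.card k := Fintype.one_lt_card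
  unfold qq
  exact_mod_cast h1

theorem qq_pos : 0 < qq k := by linarith [qq_two (k := k)]

/-- the indicator function of a hyperplane -/
noncomputable def ee (x h : Fin m → k) : ℝ := if h ⬝ᵥ x = 0 then 1 else 0

theorem sum_ee {x : Fin m → k} (hx : x ≠ 0) : ∑ h, ee x h = qq k ^ m / qq k := by
  classical
  have h1 := ker_card (k := k) (m := m) (r := 1) (fun _ => x)
    (LinearIndependent.of_subsingleton (R := k) 0 hx)
  unfold ee
  rw [Finset.sum_boole, eq_div_iff qq_pos.ne']
  unfold qq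
  rw [pow_one] at h1
  have h2 : (Finset.univ.filter fun h : Fin m → k => ∀ _ : Fin 1, h ⬝ᵥ x = 0) =
      Finset.univ.filter fun h : Fin m → k => h ⬝ᵥ x = 0 := by
    refine Finset.filter_congr fun h _ => ?_
    exact forall_const _
  rw [h2] at h1
  exact_mod_cast h1

theorem sum_ee_ee {x y : Fin m → k} (hx : x ≠ 0) (hxy : ∀ a : k, a • x ≠ y) :
    ∑ h, ee x h * ee y h = qq k ^ m / qq k ^ 2 := by
  classical
  have h1 := ker_card (k := k) (m := m) (r := 2) ![x, y] ((LinearIndependent.pair_iff' hx).2 hxy)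
  unfold ee
  have h2 : ∀ h : Fin m → k, (if h ⬝ᵥ x = 0 then (1 : ℝ) else 0) *
      (if h ⬝ᵥ y = 0 then (1 : ℝ) else 0) = if ∀ i, h ⬝ᵥ ![x, y] i = 0 then 1 else 0 := by
    intro h
    have h5 : (∀ i, h ⬝ᵥ ![x, y] i = 0) ↔ (h ⬝ᵥ x = 0 ∧ h ⬝ᵥ y = 0) := by
      rw [Fin.forall_fin_two]
      rfl
    simp only [h5]
    by_cases h3 : h ⬝ᵥ x = 0 <;> by_cases h4 : h ⬝ᵥ y = 0 <;> simp [h3, h4]
  simp only [h2]
  rw [Finset.sum_boole, eq_div_iff (pow_pos qq_pos 2).ne']
  unfold qq
  exact_mod_cast h1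

theorem sum_ee_le {x y : Fin m → k} (hx : x ≠ 0) :
    ∑ h, ee x h * ee y h ≤ qq k ^ m / qq k := by
  rw [← sum_ee hx]
  refine Finset.sum_le_sum fun h _ => ?_
  unfold ee
  split_ifs <;> norm_num

variable {M : ℕ}

/-- the nonzero vectors which are not in the base locus -/
noncomputable def WW (g : (Fin M → k) → Fin m → k) : Finset (Fin M → k) :=
  Finset.univ.filter fun u => u ≠ 0 ∧ g u ≠ 0

/-- the nonzero vectors in the base locus -/
noncomputable def ZZ (g : (Fin M → k) → Fin m → k) : Finset (Fin M → k) :=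
  Finset.univ.filter fun u => u ≠ 0 ∧ g u = 0

/-- the number of the zeros of the member `h` -/
noncomputable def sol (g : (Fin M → k) → Fin m → k) (h : Fin m → k) : ℝ :=
  ((Finset.univ.filter fun u : Fin M → k => u ≠ 0 ∧ h ⬝ᵥ g u = 0).card : ℝ)

theorem sol_eq (g : (Fin M → k) → Fin m → k) (h : Fin m → k) :
    sol g h = (ZZ g).card + ∑ u ∈ WW g, ee (g u) h := by
  classical
  unfold sol ee
  rw [Finset.sum_boole]
  rw [← Nat.cast_add, Nat.cast_inj]
  rw [← Finset.card_union_of_disjoint]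
  · congr 1
    ext u
    simp only [ZZ, WW, Finset.mem_filter, Finset.mem_univ, true_and, Finset.mem_union]
    constructor
    · rintro ⟨h1, h2⟩
      by_cases h3 : g u = 0
      · exact Or.inl ⟨h1, h3⟩
      · exact Or.inr ⟨⟨h1, h3⟩, h2⟩
    · rintro (⟨h1, h2⟩ | ⟨⟨h1, h2⟩, h3⟩)
      · refine ⟨h1, ?_⟩
        rw [h2, dotProduct_zero]
      · exact ⟨h1, h3⟩
  · rw [Finset.disjoint_left]
    intro u h1 h2
    simp only [ZZ, WW, Finset.mem_filter, Finset.mem_univ, true_and] at h1 h2
    exact h2.1.2 h1.2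

theorem card_WW (g : (Fin M → k) → Fin m → k) :
    ((ZZ g).card : ℝ) + (WW g).card = qq k ^ M - 1 := by
  classical
  have h1 : (ZZ g).card + (WW g).card + 1 = Fintype.card k ^ M := by
    have h2 : (ZZ g) ∪ (WW g) = Finset.univ.erase (0 : Fin M → k) := by
      ext u
      simp only [ZZ, WW, Finset.mem_filter, Finset.mem_univ, true_and, Finset.mem_union,
        Finset.mem_erase, and_true]
      tauto
    have h3 : Disjoint (ZZ g) (WW g) := by
      rw [Finset.disjoint_left]
      intro u h1 h2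
      simp only [ZZ, WW, Finset.mem_filter, Finset.mem_univ, true_and] at h1 h2
      exact h2.2 h1.2
    rw [← Finset.card_union_of_disjoint h3, h2, Finset.card_erase_of_mem (Finset.mem_univ _),
      Finset.card_univ, Fintype.card_fun, Fintype.card_fin]
    have : 0 < Fintype.card k ^ M := pow_pos Fintype.card_pos M
    omega
  unfold qq
  have h2 : ((ZZ g).card : ℝ) + (WW g).card + 1 = (Fintype.card k : ℝ) ^ M := by exact_mod_cast h1
  linarith

/-- the mean value of the number of zeros -/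
noncomputable def mu (g : (Fin M → k) → Fin m → k) : ℝ := (ZZ g).card + (WW g).card / qq k

theorem sum_sol (g : (Fin M → k) → Fin m → k) : ∑ h, sol g h = qq k ^ m * mu g := by
  classical
  simp only [sol_eq]
  rw [Finset.sum_add_distrib, Finset.sum_const, Finset.sum_comm]
  have h1 : ∑ u ∈ WW g, ∑ h, ee (g u) h = ∑ u ∈ WW g, qq k ^ m / qq k := by
    refine Finset.sum_congr rfl fun u hu => sum_ee ?_
    simp only [WW, Finset.mem_filter, Finset.mem_univ, true_and] at hu
    exact hu.2
  rw [h1, Finset.sum_const, Finset.card_univ, Fintype.card_fun, Fintype.card_fin, nsmul_eq_mul,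
    nsmul_eq_mul]
  unfold mu qq
  push_cast
  ring

/-- the system separates the points outside of the base locus -/
def Sep (g : (Fin M → k) → Fin m → k) : Prop :=
  ∀ u w : Fin M → k, g u ≠ 0 → ∀ c : k, c ≠ 0 → g w = c • g u → ∃ μ : k, w = μ • u

theorem sum_var {g : (Fin M → k) → Fin m → k} (hg : Sep g) :
    ∑ h, (sol g h - mu g) ^ 2 ≤ qq k ^ m * qq k ^ M := by
  classical
  have hq := qq_pos (k := k)
  have e1 : ∀ h, sol g h - mu g = ∑ u ∈ WW g, (ee (g u) h - 1 / qq k) := by
    intro h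
    rw [sol_eq, Finset.sum_sub_distrib, Finset.sum_const, nsmul_eq_mul]
    unfold mu
    ring
  have e2 : ∑ h, (sol g h - mu g) ^ 2 = ∑ u ∈ WW g, ∑ w ∈ WW g,
      (∑ h, ee (g u) h * ee (g w) h - qq k ^ m / qq k ^ 2) := by
    simp only [e1, sq (∑ u ∈ WW g, _), Finset.sum_mul_sum]
    rw [Finset.sum_comm]
    refine Finset.sum_congr rfl fun u hu => ?_
    rw [Finset.sum_comm]
    refine Finset.sum_congr rfl fun w hw => ?_
    simp only [WW, Finset.mem_filter, Finset.mem_univ, true_and] at hu hw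
    have f1 : ∀ h : Fin m → k, (ee (g u) h - 1 / qq k) * (ee (g w) h - 1 / qq k) =
        ee (g u) h * ee (g w) h - (1 / qq k) * ee (g u) h - (1 / qq k) * ee (g w) h +
          1 / qq k ^ 2 := by
      intro h
      field_simp
      ring
    simp only [f1]
    rw [Finset.sum_add_distrib, Finset.sum_sub_distrib, Finset.sum_sub_distrib, ← Finset.mul_sum,
      ← Finset.mul_sum, sum_ee hu.2, sum_ee hw.2, Finset.sum_const, Finset.card_univ,
      Fintype.card_fun, Fintype.card_fin, nsmul_eq_mul]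
    unfold qq at hq ⊢
    push_cast
    field_simp
    ring
  rw [e2]
  have e3 : ∀ u ∈ WW g, ∑ w ∈ WW g, (∑ h, ee (g u) h * ee (g w) h - qq k ^ m / qq k ^ 2) ≤
      qq k ^ m := by
    intro u hu
    have hu' := hu
    simp only [WW, Finset.mem_filter, Finset.mem_univ, true_and] at hu'
    have f1 : ∀ w ∈ WW g, (∑ h, ee (g u) h * ee (g w) h - qq k ^ m / qq k ^ 2) ≤
        if w ∈ Finset.univ.image (fun μ : k => μ • u) then qq k ^ m / qq k else 0 := by
      intro w hw
      simp only [WW, Finset.mem_filter, Finset.mem_univ, true_and] at hw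
      split_ifs with h1
      · have := sum_ee_le (k := k) (x := g u) (y := g w) hu'.2
        have h2 : 0 ≤ qq k ^ m / qq k ^ 2 := by positivity
        linarith
      · rw [sum_ee_ee hu'.2, sub_self]
        intro a ha
        apply h1
        have ha0 : a ≠ 0 := by
          rintro rfl
          rw [zero_smul] at ha
          exact hw.2 ha.symm
        obtain ⟨μ, hμ⟩ := hg u w hu'.2 a ha0 ha.symm
        exact Finset.mem_image.2 ⟨μ, Finset.mem_univ _, hμ.symm⟩
    refine (Finset.sum_le_sum f1).trans ?_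
    rw [← Finset.sum_filter, Finset.sum_const, nsmul_eq_mul]
    have h2 : (((WW g).filter fun w => w ∈ Finset.univ.image (fun μ : k => μ • u)).card : ℝ) ≤
        qq k := by
      unfold qq
      have h3 : ((WW g).filter fun w => w ∈ Finset.univ.image (fun μ : k => μ • u)).card ≤
          (Finset.univ.image (fun μ : k => μ • u)).card :=
        Finset.card_le_card fun w hw => (Finset.mem_filter.1 hw).2
      exact_mod_cast h3.trans (Finset.card_image_le.trans (le_of_eq Finset.card_univ))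
    calc _ ≤ qq k * (qq k ^ m / qq k) := mul_le_mul_of_nonneg_right h2 (by positivity)
      _ = _ := by field_simp
  refine (Finset.sum_le_sum e3).trans ?_
  rw [Finset.sum_const, nsmul_eq_mul, mul_comm]
  refine mul_le_mul_of_nonneg_left ?_ (by positivity)
  have := card_WW g
  have : (0 : ℝ) ≤ (ZZ g).card := Nat.cast_nonneg _
  linarith

theorem sol_le (g : (Fin M → k) → Fin m → k) (h : Fin m → k) : sol g h ≤ qq k ^ M - 1 := by
  rw [sol_eq, ← card_WW g]
  refine add_le_add le_rfl ((Finset.sum_le_card_nsmul _ _ 1 fun u _ => ?_).trans ?_)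
  · unfold ee
    split_ifs <;> norm_num
  · rw [nsmul_eq_mul, mul_one]

theorem sol_nonneg (g : (Fin M → k) → Fin m → k) (h : Fin m → k) : 0 ≤ sol g h := Nat.cast_nonneg _

end lin

section hyper

variable {k : Type} [Field k] [Fintype k] [DecidableEq k] {m j : ℕ}

/-- the number of the points of a projective space -/
theorem geom (q : ℝ) (hq : 2 ≤ q) (n : ℕ) :
    ∑ i ∈ Finset.range n, q ^ i = (q ^ n - 1) / (q - 1) := geom_sum_eq (by linarith) n

/-- the sum of the traces on the other cohomology groups -/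
noncomputable def oth (j : ℕ) (q : ℝ) : ℝ := ∑ i ∈ (Finset.range (2 * j + 1)).erase j, q ^ i

theorem oth_eq (j : ℕ) (q : ℝ) : oth j q = ∑ i ∈ Finset.range (2 * j + 1), q ^ i - q ^ j := by
  unfold oth
  have h1 := Finset.sum_erase_add (Finset.range (2 * j + 1)) (fun i => q ^ i)
    (Finset.mem_range.2 (by omega : j < 2 * j + 1))
  linarith

/-- the trace on the middle cohomology group -/
noncomputable def tr (g : (Fin (2 * j + 2) → k) → Fin m → k) (h : Fin m → k) : ℝ :=
  sol g h / (qq k - 1) - oth j (qq k)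

/-- the number of the points of the base locus -/
noncomputable def bs (g : (Fin (2 * j + 2) → k) → Fin m → k) : ℝ := (ZZ g).card / (qq k - 1)

/-- the local function -/
noncomputable def ps (g : (Fin (2 * j + 2) → k) → Fin m → k) (h : Fin m → k) : ℝ :=
  (tr g h - bs g) / qq k ^ (j + 1) - 1 / qq k

theorem ps_eq (g : (Fin (2 * j + 2) → k) → Fin m → k) (h : Fin m → k) :
    ps g h = (sol g h - mu g) / ((qq k - 1) * qq k ^ (j + 1)) +
      (1 - bs g) / (qq k * qq k ^ (j + 1)) := by
  have hq := qq_two (k := k)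
  have h1 : qq k - 1 ≠ 0 := by linarith
  have h0 : qq k ≠ 0 := by linarith
  have hg := geom (qq k) hq (2 * j + 1)
  have hW := card_WW g
  have e1 : mu g = (ZZ g).card * (1 - 1 / qq k) + (qq k ^ (2 * j + 2) - 1) / qq k := by
    unfold mu
    have : ((WW g).card : ℝ) = qq k ^ (2 * j + 2) - 1 - (ZZ g).card := by linarith
    rw [this]
    field_simp
    ring
  unfold ps tr bs
  rw [oth_eq, hg, e1]
  have e2 : qq k ^ (2 * j + 2) = qq k * qq k ^ (2 * j + 1) := by ring
  rw [e2]
  field_simp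
  ring

theorem ps_sum {g : (Fin (2 * j + 2) → k) → Fin m → k} :
    ∑ h, ps g h = qq k ^ m * ((1 - bs g) / (qq k * qq k ^ (j + 1))) := by
  simp only [ps_eq]
  rw [Finset.sum_add_distrib, ← Finset.sum_div, Finset.sum_sub_distrib, sum_sol, Finset.sum_const,
    Finset.sum_const, Finset.card_univ, Fintype.card_fun, Fintype.card_fin, nsmul_eq_mul,
    nsmul_eq_mul]
  unfold qq
  push_cast
  ring

theorem bs_nonneg (g : (Fin (2 * j + 2) → k) → Fin m → k) : 0 ≤ bs g := by
  have hq := qq_two (k := k)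
  unfold bs
  exact div_nonneg (Nat.cast_nonneg _) (by linarith)

theorem ps_mean {g : (Fin (2 * j + 2) → k) → Fin m → k} {C : ℝ} (hC : 0 ≤ C)
    (hb : bs g ≤ C * qq k ^ j) :
    |(1 - bs g) / (qq k * qq k ^ (j + 1))| ≤ (1 + C) / qq k ^ 2 := by
  have hq := qq_two (k := k)
  have h1 : 1 ≤ qq k ^ j := one_le_pow₀ (by linarith)
  have h2 := bs_nonneg g
  have hpos : 0 < qq k * qq k ^ (j + 1) := by positivity
  rw [abs_div, abs_of_pos hpos]
  have h3 : |1 - bs g| ≤ (1 + C) * qq k ^ j := by
    rw [abs_le]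
    constructor <;> nlinarith
  rw [div_le_div_iff₀ hpos (by positivity)]
  calc |1 - bs g| * qq k ^ 2 ≤ (1 + C) * qq k ^ j * qq k ^ 2 :=
        mul_le_mul_of_nonneg_right h3 (by positivity)
    _ = _ := by ring

theorem ps_sq {g : (Fin (2 * j + 2) → k) → Fin m → k} (hg : Sep g) {C : ℝ} (hC : 0 ≤ C)
    (hb : bs g ≤ C * qq k ^ j) :
    (∑ h, ps g h ^ 2) / qq k ^ m ≤ (8 + 2 * (1 + C) ^ 2) / qq k ^ 2 := by
  have hq := qq_two (k := k)
  have hq0 := qq_pos (k := k)
  have h1 : 0 < qq k - 1 := by linarith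
  set δ := (1 - bs g) / (qq k * qq k ^ (j + 1)) with hδ
  have e1 : ∀ h, ps g h ^ 2 ≤
      2 / ((qq k - 1) * qq k ^ (j + 1)) ^ 2 * (sol g h - mu g) ^ 2 + 2 * δ ^ 2 := by
    intro h
    rw [ps_eq, ← hδ]
    have e : 2 / ((qq k - 1) * qq k ^ (j + 1)) ^ 2 * (sol g h - mu g) ^ 2 =
        2 * ((sol g h - mu g) / ((qq k - 1) * qq k ^ (j + 1))) ^ 2 := by
      rw [div_pow]
      ring
    rw [e]
    nlinarith [sq_nonneg ((sol g h - mu g) / ((qq k - 1) * qq k ^ (j + 1)) - δ)]
  have e2 : ∑ h, ps g h ^ 2 ≤ 2 / ((qq k - 1) * qq k ^ (j + 1)) ^ 2 *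
      (qq k ^ m * qq k ^ (2 * j + 2)) + qq k ^ m * (2 * δ ^ 2) := by
    refine (Finset.sum_le_sum fun h _ => e1 h).trans ?_
    rw [Finset.sum_add_distrib, ← Finset.mul_sum, Finset.sum_const, Finset.card_univ,
      Fintype.card_fun, Fintype.card_fin, nsmul_eq_mul]
    refine add_le_add (mul_le_mul_of_nonneg_left (sum_var hg) (by positivity)) (le_of_eq ?_)
    unfold qq
    push_cast
    ring
  have e3 : δ ^ 2 ≤ (1 + C) ^ 2 / qq k ^ 2 := by
    have h2 := ps_mean hC hb
    rw [← hδ] at h2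
    rw [← sq_abs]
    refine (pow_le_pow_left₀ (abs_nonneg _) h2 2).trans ?_
    rw [div_pow, ← pow_mul]
    refine div_le_div_of_nonneg_left (by positivity) (by positivity) ?_
    exact pow_le_pow_right₀ (by linarith) (by norm_num)
  have e4 : 2 / ((qq k - 1) * qq k ^ (j + 1)) ^ 2 * (qq k ^ m * qq k ^ (2 * j + 2)) ≤
      qq k ^ m * (8 / qq k ^ 2) := by
    have f1 : 2 / ((qq k - 1) * qq k ^ (j + 1)) ^ 2 * (qq k ^ m * qq k ^ (2 * j + 2)) =
        qq k ^ m * (2 / (qq k - 1) ^ 2) := by
      have : qq k ^ (2 * j + 2) = (qq k ^ (j + 1)) ^ 2 := by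
        rw [← pow_mul]
        congr 1
        ring
      rw [this]
      field_simp
    rw [f1]
    refine mul_le_mul_of_nonneg_left ?_ (by positivity)
    rw [div_le_div_iff₀ (by positivity) (by positivity)]
    nlinarith
  rw [div_le_iff₀ (by positivity)]
  have e5 : qq k ^ m * (2 * δ ^ 2) ≤ qq k ^ m * (2 * ((1 + C) ^ 2 / qq k ^ 2)) :=
    mul_le_mul_of_nonneg_left (by linarith) (by positivity)
  have e6 : (8 + 2 * (1 + C) ^ 2) / qq k ^ 2 * qq k ^ m =
      qq k ^ m * (8 / qq k ^ 2) + qq k ^ m * (2 * ((1 + C) ^ 2 / qq k ^ 2)) := by ring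
  rw [e6]
  linarith

theorem ps_bd (g : (Fin (2 * j + 2) → k) → Fin m → k) (h : Fin m → k) :
    |ps g h| ≤ 7 * qq k ^ j := by
  have hq := qq_two (k := k)
  have hq0 := qq_pos (k := k)
  have h1 : 0 < qq k - 1 := by linarith
  have hpow : 0 < qq k ^ (j + 1) := by positivity
  have hP : (qq k ^ (2 * j + 2) - 1) / (qq k - 1) ≤ 2 * qq k ^ (2 * j + 1) := by
    rw [div_le_iff₀ h1]
    have : qq k ^ (2 * j + 2) = qq k * qq k ^ (2 * j + 1) := by ring
    have h3 : 0 < qq k ^ (2 * j + 1) := by positivity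
    nlinarith
  have hS : sol g h / (qq k - 1) ≤ 2 * qq k ^ (2 * j + 1) :=
    (div_le_div_of_nonneg_right (sol_le g h) h1.le).trans hP
  have hS0 : 0 ≤ sol g h / (qq k - 1) := div_nonneg (sol_nonneg g h) h1.le
  have hB : bs g ≤ 2 * qq k ^ (2 * j + 1) := by
    unfold bs
    refine (div_le_div_of_nonneg_right ?_ h1.le).trans hP
    have := card_WW g
    have : (0 : ℝ) ≤ (WW g).card := Nat.cast_nonneg _
    linarith
  have hB0 := bs_nonneg g
  have hO0 : 0 ≤ oth j (qq k) := Finset.sum_nonneg fun i _ => by positivity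
  have hO : oth j (qq k) ≤ 2 * qq k ^ (2 * j + 1) := by
    rw [oth_eq, geom _ hq]
    have h3 : (0 : ℝ) ≤ qq k ^ j := by positivity
    have h4 : (qq k ^ (2 * j + 1) - 1) / (qq k - 1) ≤ (qq k ^ (2 * j + 2) - 1) / (qq k - 1) := by
      refine div_le_div_of_nonneg_right ?_ h1.le
      have : qq k ^ (2 * j + 1) ≤ qq k ^ (2 * j + 2) :=
        pow_le_pow_right₀ (by linarith) (by omega)
      linarith
    linarith
  unfold ps tr
  have h5 : |sol g h / (qq k - 1) - oth j (qq k) - bs g| ≤ 6 * qq k ^ (2 * j + 1) := by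
    rw [abs_le]
    constructor <;> linarith
  refine (abs_sub _ _).trans ?_
  rw [abs_div, abs_of_pos hpow, abs_of_pos (show 0 < 1 / qq k by positivity)]
  have h6 : |sol g h / (qq k - 1) - oth j (qq k) - bs g| / qq k ^ (j + 1) ≤ 6 * qq k ^ j := by
    rw [div_le_iff₀ hpow]
    refine h5.trans (le_of_eq ?_)
    rw [mul_assoc, ← pow_add]
    congr 2
    ring
  have h7 : 1 / qq k ≤ 1 := by
    rw [div_le_one hq0]
    linarith
  have h8 : 1 ≤ qq k ^ j := one_le_pow₀ (by linarith)
  linarith

end hyper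

end Pool.Agent.W5h26.HH
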