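import Pool.Agent.W5h26.LD.Mert
import Pool.Agent.W5h26.CL.Lim

/-!
# A maximal inequality for sums of local functions over boxes
-/

set_option autoImplicit false
set_option linter.unusedSectionVars false
set_option maxHeartbeats 400000

open Filter Topology Finset
open NumberField IsDedekindDomain Pool.Agent.H921R2.TatePole

namespace Pool.Agent.W5h26.HH

open Pool.Agent.W5h26.EP Pool.Agent.W5h26.AO Pool.Agent.W5h26.CL Pool.Agent.W5h26.LD

variable {K : Type} [Field K] [NumberField K]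

/-- the primes of norm in `(a, b]` -/
noncomputable def PI (K : Type) [Field K] [NumberField K] (a b : ℕ) :
    Finset (HeightOneSpectrum (𝓞 K)) := (PX K b).filter fun v => a < nm v

theorem mem_PI {a b : ℕ} {v : HeightOneSpectrum (𝓞 K)} : v ∈ PI K a b ↔ a < nm v ∧ nm v ≤ b := by
  unfold PI
  rw [Finset.mem_filter, mem_PX, and_comm]
  exact and_congr Iff.rfl Nat.cast_le

theorem card_PI (a b : ℕ) : (PI K a b).card ≤ Module.finrank ℤ (𝓞 K) * (b - a) := by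
  classical
  have h1 := Finset.card_le_mul_card_image_of_maps_to (s := PI K a b) (t := Finset.Ioc a b)
    (f := fun v => nm v) (fun v hv => Finset.mem_Ioc.2 (mem_PI.1 hv)) (Module.finrank ℤ (𝓞 K))
    (fun q _ => card_norm _ q fun v hv => (Finset.mem_filter.1 hv).2)
  rwa [Nat.card_Ioc] at h1

theorem sum_PI (f : HeightOneSpectrum (𝓞 K) → ℝ) {a b c : ℕ} (hab : a ≤ b) (hbc : b ≤ c) :
    ∑ v ∈ PI K a c, f v = ∑ v ∈ PI K a b, f v + ∑ v ∈ PI K b c, f v := by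
  classical
  rw [← Finset.sum_union]
  · congr 1
    ext v
    rw [Finset.mem_union, mem_PI, mem_PI, mem_PI]
    omega
  · rw [Finset.disjoint_left]
    intro v h1 h2
    have := mem_PI.1 h1
    have := mem_PI.1 h2
    omega

theorem sum_chain (f : HeightOneSpectrum (𝓞 K) → ℝ) (g : ℕ → ℕ) (hg : Monotone g) {k l : ℕ}
    (h : k ≤ l) :
    ∑ v ∈ PI K (g k) (g l), f v = ∑ i ∈ Finset.Ico k l, ∑ v ∈ PI K (g i) (g (i + 1)), f v := by
  induction l, h using Nat.le_induction with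
  | base =>
    rw [Finset.Ico_self, Finset.sum_empty]
    refine Finset.sum_eq_zero fun v hv => ?_
    have := mem_PI.1 hv
    omega
  | succ l hl ih =>
    rw [sum_PI f (hg hl) (hg (Nat.le_succ l)), ih, Finset.sum_Ico_succ_top hl]

variable {n : ℕ} {κ : Type} [Fintype κ] [DecidableEq κ] {b : Module.Basis κ ℤ (𝓞 K)}

/-- small local functions -/
structure Small (ψ : ∀ v : HeightOneSpectrum (𝓞 K), (Fin n → 𝓞 K ⧸ v.asIdeal) → ℝ) (J : ℕ)
    (C : ℝ) : Prop where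
  C0 : 0 ≤ C
  sup : ∀ v q, |ψ v q| ≤ C * (nm v : ℝ) ^ J
  one : ∀ v, |av v (ψ v)| ≤ C / (nm v : ℝ) ^ 2
  two : ∀ v, av v (fun q => ψ v q ^ 2) ≤ C / (nm v : ℝ) ^ 2

variable {ψ : ∀ v : HeightOneSpectrum (𝓞 K), (Fin n → 𝓞 K ⧸ v.asIdeal) → ℝ} {J : ℕ} {C : ℝ}

/-- the partial sums -/
noncomputable def SS (ψ : ∀ v : HeightOneSpectrum (𝓞 K), (Fin n → 𝓞 K ⧸ v.asIdeal) → ℝ)
    (a c : ℕ) (h : Fin n → 𝓞 K) : ℝ := ∑ v ∈ PI K a c, ψ v (rho v n h)

/-- the degree -/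
noncomputable def dg (K : Type) [Field K] [NumberField K] : ℝ := (Module.finrank ℤ (𝓞 K) : ℝ)

theorem dg_nonneg : 0 ≤ dg K := Nat.cast_nonneg _

theorem card_PI' {a c : ℕ} (h : a ≤ c) : ((PI K a c).card : ℝ) ≤ dg K * (c - a) := by
  have h1 := card_PI (K := K) a c
  have h2 : ((PI K a c).card : ℝ) ≤ (Module.finrank ℤ (𝓞 K) * (c - a) : ℕ) := by exact_mod_cast h1
  rw [Nat.cast_mul, Nat.cast_sub h] at h2
  exact h2

theorem sum_const_le {f : HeightOneSpectrum (𝓞 K) → ℝ} {a c : ℕ} (h : a ≤ c) {B : ℝ} (hB : 0 ≤ B)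
    (hf : ∀ v ∈ PI K a c, f v ≤ B) : ∑ v ∈ PI K a c, f v ≤ dg K * (c - a) * B := by
  refine (Finset.sum_le_card_nsmul _ _ _ hf).trans ?_
  rw [nsmul_eq_mul]
  exact mul_le_mul_of_nonneg_right (card_PI' h) hB

theorem inv_le {a c : ℕ} (ha : 0 < a) {v : HeightOneSpectrum (𝓞 K)} (hv : v ∈ PI K a c) {D : ℝ}
    (hD : 0 ≤ D) (m : ℕ) : D / (nm v : ℝ) ^ m ≤ D / (a : ℝ) ^ m := by
  have h1 := mem_PI.1 hv
  have ha' : (0 : ℝ) < a := by exact_mod_cast ha
  refine div_le_div_of_nonneg_left hD (by positivity) (pow_le_pow_left₀ ha'.le ?_ m)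
  exact_mod_cast h1.1.le

/-- the constant of the error term -/
noncomputable def D₀ (K : Type) [Field K] [NumberField K] (n : ℕ) (κ : Type) [Fintype κ] (C : ℝ) :
    ℝ := 2 * (n * Fintype.card κ) * (dg K * C) ^ 2

theorem D₀_nonneg : 0 ≤ D₀ K n κ C := by
  unfold D₀
  positivity

/-- the second moment over the primes of an interval -/
theorem second_PI {φ : ∀ v : HeightOneSpectrum (𝓞 K), (Fin n → 𝓞 K ⧸ v.asIdeal) → ℝ} (hC : 0 ≤ C)
    (hsup : ∀ v q, |φ v q| ≤ C * (nm v : ℝ) ^ J) {a c : ℕ} (hac : a ≤ c) (hc : 1 ≤ c)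
    (N : ℕ) :
    rmean (bx b n N) (fun h => SS φ a c h ^ 2) ≤
      ∑ v ∈ PI K a c, av v (fun h => φ v h ^ 2) + (∑ v ∈ PI K a c, |av v (φ v)|) ^ 2 +
        D₀ K n κ C * (c : ℝ) ^ (2 * J + 4) / (2 * N + 1) := by
  have hc' : (1 : ℝ) ≤ c := by exact_mod_cast hc
  have h1 := second (b := b) (PI K a c) φ (β := fun v => C * (nm v : ℝ) ^ J) hsup (X := c) hc'
    (fun v hv => by exact_mod_cast (mem_PI.1 hv).2) N
  refine h1.trans ?_
  refine add_le_add le_rfl (div_le_div_of_nonneg_right ?_ (by positivity))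
  have h2 : ∑ v ∈ PI K a c, C * (nm v : ℝ) ^ J ≤ dg K * c * (C * (c : ℝ) ^ J) := by
    refine (sum_const_le hac (B := C * (c : ℝ) ^ J) (by positivity) fun v hv => ?_).trans ?_
    · have := mem_PI.1 hv
      refine mul_le_mul_of_nonneg_left (pow_le_pow_left₀ (Nat.cast_nonneg _) ?_ J) hC
      exact_mod_cast this.2
    · have h3 : (c : ℝ) - a ≤ c := by
        have : (0 : ℝ) ≤ a := Nat.cast_nonneg _
        linarith
      have h4 := dg_nonneg (K := K)
      gcongr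
  have h3 : 0 ≤ ∑ v ∈ PI K a c, C * (nm v : ℝ) ^ J := Finset.sum_nonneg fun v _ => by positivity
  have h5 := dg_nonneg (K := K)
  calc 2 * (n * Fintype.card κ) * (c : ℝ) ^ 2 * (∑ v ∈ PI K a c, C * (nm v : ℝ) ^ J) ^ 2
      ≤ 2 * (n * Fintype.card κ) * (c : ℝ) ^ 2 * (dg K * c * (C * (c : ℝ) ^ J)) ^ 2 := by gcongr
    _ = _ := by
        unfold D₀
        ring

theorem E_one (H : Small ψ J C) {a c : ℕ} (ha : 0 < a) (hac : a ≤ c) (hc : c ≤ 16 * a) (N : ℕ) :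
    rmean (bx b n N) (fun h => SS ψ a c h ^ 2) ≤
      (15 * dg K * C + (15 * dg K * C) ^ 2) / a + D₀ K n κ C * (c : ℝ) ^ (2 * J + 4) / (2 * N + 1) := by
  have ha' : (1 : ℝ) ≤ a := by exact_mod_cast ha
  have hd := dg_nonneg (K := K)
  have hC := H.C0
  have hca : (c : ℝ) - a ≤ 15 * a := by
    have : (c : ℝ) ≤ 16 * a := by exact_mod_cast hc
    linarith
  refine (second_PI (b := b) H.C0 H.sup hac (by omega) N).trans ?_
  have h1 : ∑ v ∈ PI K a c, av v (fun h => ψ v h ^ 2) ≤ 15 * dg K * C / a := by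
    refine (sum_const_le hac (B := C / (a : ℝ) ^ 2) (by positivity) fun v hv =>
      (H.two v).trans (inv_le ha hv hC 2)).trans ?_
    calc dg K * (c - a) * (C / (a : ℝ) ^ 2) ≤ dg K * (15 * a) * (C / (a : ℝ) ^ 2) := by gcongr
      _ = _ := by field_simp
  have h2 : ∑ v ∈ PI K a c, |av v (ψ v)| ≤ 15 * dg K * C / a := by
    refine (sum_const_le hac (B := C / (a : ℝ) ^ 2) (by positivity) fun v hv =>
      (H.one v).trans (inv_le ha hv hC 2)).trans ?_
    calc dg K * (c - a) * (C / (a : ℝ) ^ 2) ≤ dg K * (15 * a) * (C / (a : ℝ) ^ 2) := by gcongr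
      _ = _ := by field_simp
  have h3 : 0 ≤ ∑ v ∈ PI K a c, |av v (ψ v)| := Finset.sum_nonneg fun _ _ => abs_nonneg _
  have h4 : (∑ v ∈ PI K a c, |av v (ψ v)|) ^ 2 ≤ (15 * dg K * C) ^ 2 / a := by
    refine (pow_le_pow_left₀ h3 h2 2).trans ?_
    rw [div_pow]
    refine div_le_div_of_nonneg_left (by positivity) (by positivity) ?_
    nlinarith
  rw [add_div]
  linarith

/-- the average of the absolute value -/
theorem av_abs_le (H : Small ψ J C) (v : HeightOneSpectrum (𝓞 K)) :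
    av v (fun q => |ψ v q|) ≤ √C / nm v := by
  classical
  have hq := nm_pos v
  have h1 : (av v fun q => |ψ v q|) ^ 2 ≤ av v fun q => ψ v q ^ 2 := by
    unfold av
    rw [div_pow, div_le_div_iff₀ (by positivity) (by positivity)]
    have h2 := sq_sum_le_card_mul_sum_sq (s := (Finset.univ : Finset (Fin n → 𝓞 K ⧸ v.asIdeal)))
      (f := fun q => |ψ v q|)
    rw [card_univ, card_loc] at h2
    simp only [sq_abs] at h2
    push_cast at h2
    have h3 : (0 : ℝ) ≤ (nm v : ℝ) ^ n := by positivity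
    calc (∑ q, |ψ v q|) ^ 2 * (nm v : ℝ) ^ n
        ≤ ((nm v : ℝ) ^ n * ∑ q, ψ v q ^ 2) * (nm v : ℝ) ^ n := mul_le_mul_of_nonneg_right h2 h3
      _ = _ := by ring
  have h2 := h1.trans (H.two v)
  have h3 : (0 : ℝ) ≤ av v fun q => |ψ v q| := by
    unfold av
    exact div_nonneg (Finset.sum_nonneg fun _ _ => abs_nonneg _) (by positivity)
  have h4 : √C / nm v = √(C / (nm v : ℝ) ^ 2) := by
    rw [Real.sqrt_div H.C0, Real.sqrt_sq hq.le]
  rw [h4]
  exact Real.le_sqrt_of_sq_le h2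

theorem E_abs (H : Small ψ J C) {i : ℕ} (hi : 0 < i) (N : ℕ) :
    rmean (bx b n N) (fun h => SS (fun v q => |ψ v q|) (i ^ 4) ((i + 1) ^ 4) h ^ 2) ≤
      (15 * dg K * C + (15 * dg K * √C) ^ 2) / (i : ℝ) ^ 2 +
        D₀ K n κ C * (((i + 1) ^ 4 : ℕ) : ℝ) ^ (2 * J + 4) / (2 * N + 1) := by
  have hi' : (1 : ℝ) ≤ i := by exact_mod_cast hi
  have hd := dg_nonneg (K := K)
  have hC := H.C0
  have hs := Real.sqrt_nonneg C
  have hac : i ^ 4 ≤ (i + 1) ^ 4 := Nat.pow_le_pow_left (Nat.le_succ i) 4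
  have ha : 0 < i ^ 4 := by positivity
  have hca : (((i + 1) ^ 4 : ℕ) : ℝ) - ((i ^ 4 : ℕ) : ℝ) ≤ 15 * (i : ℝ) ^ 3 := by
    push_cast
    have e1 : (i : ℝ) ^ 2 ≤ (i : ℝ) ^ 3 := pow_le_pow_right₀ hi' (by norm_num)
    have e2 : (i : ℝ) ≤ (i : ℝ) ^ 3 := le_self_pow₀ hi' (by norm_num)
    have e3 : (1 : ℝ) ≤ (i : ℝ) ^ 3 := one_le_pow₀ hi'
    nlinarith
  refine (second_PI (b := b) (φ := fun v q => |ψ v q|) H.C0
    (fun v q => by rw [abs_abs]; exact H.sup v q) hac (Nat.one_le_pow _ _ (by omega)) N).trans ?_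
  simp only [sq_abs]
  have hcast : ((i ^ 4 : ℕ) : ℝ) = (i : ℝ) ^ 4 := by push_cast; rfl
  have h1 : ∑ v ∈ PI K (i ^ 4) ((i + 1) ^ 4), av v (fun h => ψ v h ^ 2) ≤
      15 * dg K * C / (i : ℝ) ^ 2 := by
    refine (sum_const_le hac (B := C / ((i ^ 4 : ℕ) : ℝ) ^ 2) (by positivity) fun v hv =>
      (H.two v).trans (inv_le ha hv hC 2)).trans ?_
    rw [hcast]
    rw [hcast] at hca
    calc dg K * ((((i + 1) ^ 4 : ℕ) : ℝ) - (i : ℝ) ^ 4) * (C / ((i : ℝ) ^ 4) ^ 2)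
        ≤ dg K * (15 * (i : ℝ) ^ 3) * (C / ((i : ℝ) ^ 4) ^ 2) := by gcongr
      _ = 15 * dg K * C / (i : ℝ) ^ 5 := by field_simp
      _ ≤ _ := div_le_div_of_nonneg_left (by positivity) (by positivity)
          (pow_le_pow_right₀ hi' (by norm_num))
  have h2 : ∑ v ∈ PI K (i ^ 4) ((i + 1) ^ 4), |av v (fun q => |ψ v q|)| ≤
      15 * dg K * √C / i := by
    refine (sum_const_le hac (B := √C / ((i ^ 4 : ℕ) : ℝ) ^ 1) (by positivity) fun v hv => ?_).trans ?_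
    · rw [abs_of_nonneg]
      · have h3 := av_abs_le H v
        have h4 := inv_le ha hv hs 1
        rw [pow_one] at h4
        exact h3.trans h4
      · unfold av
        have := nm_pos v
        exact div_nonneg (Finset.sum_nonneg fun _ _ => abs_nonneg _) (by positivity)
    · rw [hcast, pow_one]
      rw [hcast] at hca
      calc dg K * ((((i + 1) ^ 4 : ℕ) : ℝ) - (i : ℝ) ^ 4) * (√C / (i : ℝ) ^ 4)
          ≤ dg K * (15 * (i : ℝ) ^ 3) * (√C / (i : ℝ) ^ 4) := by gcongr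
        _ = _ := by field_simp
  have h3 : 0 ≤ ∑ v ∈ PI K (i ^ 4) ((i + 1) ^ 4), |av v (fun q => |ψ v q|)| :=
    Finset.sum_nonneg fun _ _ => abs_nonneg _
  have h4 := pow_le_pow_left₀ h3 h2 2
  rw [div_pow] at h4
  rw [add_div]
  linarith

end Pool.Agent.W5h26.HH
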