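import Pool.Agent.W5h26.HH.Max

/-!
# The maximal inequality
-/

set_option autoImplicit false
set_option linter.unusedSectionVars false
set_option maxHeartbeats 400000

open Filter Topology Finset
open NumberField IsDedekindDomain Pool.Agent.H921R2.TatePole

namespace Pool.Agent.W5h26.HH

open Pool.Agent.W5h26.EP Pool.Agent.W5h26.AO Pool.Agent.W5h26.CL Pool.Agent.W5h26.LD

section rm

variable {A : Type} {F : Finset A}

theorem rmean_add (f g : A → ℝ) : rmean F (fun x => f x + g x) = rmean F f + rmean F g := by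
  unfold rmean
  rw [Finset.sum_add_distrib, add_div]

theorem rmean_smul (c : ℝ) (f : A → ℝ) : rmean F (fun x => c * f x) = c * rmean F f := by
  unfold rmean
  rw [← Finset.mul_sum, mul_div_assoc]

theorem rmean_sum {σ : Type} (S : Finset σ) (f : σ → A → ℝ) :
    rmean F (fun x => ∑ i ∈ S, f i x) = ∑ i ∈ S, rmean F (f i) := by
  unfold rmean
  rw [Finset.sum_comm, Finset.sum_div]

theorem rmean_const (hF : F.Nonempty) (c : ℝ) : rmean F (fun _ => c) = c := by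
  unfold rmean
  have : (0 : ℝ) < F.card := by exact_mod_cast Finset.card_pos.2 hF
  rw [Finset.sum_const, nsmul_eq_mul]
  field_simp

end rm

variable {K : Type} [Field K] [NumberField K]
variable {n : ℕ} {κ : Type} [Fintype κ] [DecidableEq κ] {b : Module.Basis κ ℤ (𝓞 K)}
variable {ψ : ∀ v : HeightOneSpectrum (𝓞 K), (Fin n → 𝓞 K ⧸ v.asIdeal) → ℝ} {J : ℕ} {C : ℝ}

theorem SS_add (ψ : ∀ v : HeightOneSpectrum (𝓞 K), (Fin n → 𝓞 K ⧸ v.asIdeal) → ℝ)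
    (h : Fin n → 𝓞 K) {a c d : ℕ} (h1 : a ≤ c) (h2 : c ≤ d) :
    SS ψ a d h = SS ψ a c h + SS ψ c d h := sum_PI _ h1 h2

theorem SS_abs (ψ : ∀ v : HeightOneSpectrum (𝓞 K), (Fin n → 𝓞 K ⧸ v.asIdeal) → ℝ)
    (h : Fin n → 𝓞 K) {a c d : ℕ} (h2 : c ≤ d) :
    |SS ψ a c h| ≤ SS (fun v q => |ψ v q|) a d h := by
  unfold SS
  refine (Finset.abs_sum_le_sum_abs _ _).trans ?_
  refine Finset.sum_le_sum_of_subset_of_nonneg (fun v hv => ?_) fun _ _ _ => abs_nonneg _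
  have := mem_PI.1 hv
  exact mem_PI.2 ⟨this.1, this.2.trans h2⟩

/-- the decomposition of a partial sum -/
theorem decomp (ψ : ∀ v : HeightOneSpectrum (𝓞 K), (Fin n → 𝓞 K ⧸ v.asIdeal) → ℝ)
    (h : Fin n → 𝓞 K) {k₀ x : ℕ} (hx : 16 ^ k₀ ≤ x) :
    ∃ i : ℕ, 2 ^ k₀ ≤ i ∧ i ^ 4 ≤ x ∧ k₀ ≤ Nat.log 2 i ∧
      |SS ψ (16 ^ k₀) x h| ≤ ∑ l ∈ Finset.Ico k₀ (Nat.log 2 i), |SS ψ (16 ^ l) (16 ^ (l + 1)) h| +
        |SS ψ (16 ^ Nat.log 2 i) (i ^ 4) h| + SS (fun v q => |ψ v q|) (i ^ 4) ((i + 1) ^ 4) h := by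
  set i := Nat.sqrt (Nat.sqrt x) with hi
  have h1 : i ^ 4 ≤ x := by
    have h2 := Nat.sqrt_le' (Nat.sqrt x)
    have h3 := Nat.sqrt_le' x
    calc i ^ 4 = (i ^ 2) ^ 2 := by ring
      _ ≤ (Nat.sqrt x) ^ 2 := Nat.pow_le_pow_left h2 2
      _ ≤ x := h3
  have h2 : x < (i + 1) ^ 4 := by
    have h2 := Nat.lt_succ_sqrt' (Nat.sqrt x)
    have h3 := Nat.lt_succ_sqrt' x
    calc x < (Nat.sqrt x + 1) ^ 2 := h3
      _ ≤ ((i + 1) ^ 2) ^ 2 := Nat.pow_le_pow_left h2 2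
      _ = (i + 1) ^ 4 := by ring
  have h16 : ∀ k : ℕ, (16 : ℕ) ^ k = (2 ^ k) ^ 4 := fun k => by
    rw [← pow_mul, mul_comm, pow_mul]
    norm_num
  have h3 : 2 ^ k₀ ≤ i := by
    rw [h16] at hx
    have h4 := hx.trans_lt h2
    have h5 := lt_of_pow_lt_pow_left₀ 4 (by omega) h4
    omega
  have hi0 : i ≠ 0 := by
    have : 0 < 2 ^ k₀ := by positivity
    omega
  have h4 : k₀ ≤ Nat.log 2 i := Nat.le_log_of_pow_le (by norm_num) h3
  have h5 : 16 ^ Nat.log 2 i ≤ i ^ 4 := by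
    rw [h16]
    exact Nat.pow_le_pow_left (Nat.pow_log_le_self 2 hi0) 4
  have h6 : 16 ^ k₀ ≤ 16 ^ Nat.log 2 i := Nat.pow_le_pow_right (by norm_num) h4
  refine ⟨i, h3, h1, h4, ?_⟩
  rw [SS_add ψ h (h6.trans h5) h1, SS_add ψ h h6 h5]
  refine (abs_add_le _ _).trans (add_le_add ((abs_add_le _ _).trans (add_le_add ?_ le_rfl)) ?_)
  · have h7 : SS ψ (16 ^ k₀) (16 ^ Nat.log 2 i) h = ∑ l ∈ Finset.Ico k₀ (Nat.log 2 i),
        SS ψ (16 ^ l) (16 ^ (l + 1)) h :=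
      sum_chain _ (fun l => 16 ^ l) (fun a b hab => Nat.pow_le_pow_right (by norm_num) hab) h4
    rw [h7]
    exact Finset.abs_sum_le_sum_abs _ _
  · exact SS_abs ψ h h2.le

/-- the majorant of the indicator function -/
noncomputable def QQ (ψ : ∀ v : HeightOneSpectrum (𝓞 K), (Fin n → 𝓞 K ⧸ v.asIdeal) → ℝ)
    (ε : ℝ) (k₀ I : ℕ) (h : Fin n → 𝓞 K) : ℝ :=
  3 / (2 * ε) * ∑ l ∈ Finset.Ico k₀ (Nat.log 2 I), (((1 : ℝ) / 2) ^ l +
    2 ^ l * SS ψ (16 ^ l) (16 ^ (l + 1)) h ^ 2) +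
  9 / ε ^ 2 * ∑ i ∈ Finset.Icc (2 ^ k₀) I, (SS ψ (16 ^ Nat.log 2 i) (i ^ 4) h ^ 2 +
    SS (fun v q => |ψ v q|) (i ^ 4) ((i + 1) ^ 4) h ^ 2)

theorem QQ_nonneg {ε : ℝ} (hε : 0 < ε) (k₀ I : ℕ) (h : Fin n → 𝓞 K) : 0 ≤ QQ ψ ε k₀ I h := by
  unfold QQ
  positivity

theorem three_cases {ε X Y Z : ℝ} (hε : 0 < ε) (hX0 : 0 ≤ X) (hZ0 : 0 ≤ Z)
    (h5 : ε < X + |Y| + Z) : 1 ≤ 3 / ε * X + 9 / ε ^ 2 * (Y ^ 2 + Z ^ 2) := by
  have hYn := abs_nonneg Y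
  rw [← sq_abs Y]
  have g0 : 0 ≤ 3 / ε * X := by positivity
  have g1 : 0 ≤ 9 / ε ^ 2 * (|Y| ^ 2 + Z ^ 2) := by positivity
  by_cases c1 : ε / 3 ≤ X
  · have : 1 ≤ 3 / ε * X := by
      rw [div_mul_eq_mul_div, one_le_div hε]
      linarith
    linarith
  have key : ε ^ 2 ≤ 9 * (|Y| ^ 2 + Z ^ 2) → 1 ≤ 9 / ε ^ 2 * (|Y| ^ 2 + Z ^ 2) := fun h => by
    rw [div_mul_eq_mul_div, one_le_div (by positivity)]
    exact h
  by_cases c2 : ε / 3 ≤ |Y|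
  · have := key (by nlinarith [sq_nonneg Z])
    linarith
  · have c3 : ε / 3 ≤ Z := by
      push Not at c1 c2
      linarith
    have := key (by nlinarith [sq_nonneg |Y|])
    linarith

theorem one_le_QQ {ε : ℝ} (hε : 0 < ε) {k₀ I : ℕ} {h : Fin n → 𝓞 K} {x : ℕ} (hx : 16 ^ k₀ ≤ x)
    (hI : ∀ i : ℕ, i ^ 4 ≤ x → i ≤ I) (hb : ε < |SS ψ (16 ^ k₀) x h|) : 1 ≤ QQ ψ ε k₀ I h := by
  obtain ⟨i, h1, h2, h3, h4⟩ := decomp ψ h hx
  have hiI := hI i h2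
  have hlog : Nat.log 2 i ≤ Nat.log 2 I := Nat.log_mono_right hiI
  set X := ∑ l ∈ Finset.Ico k₀ (Nat.log 2 i), |SS ψ (16 ^ l) (16 ^ (l + 1)) h| with hX
  set Y := SS ψ (16 ^ Nat.log 2 i) (i ^ 4) h with hY
  set Z := SS (fun v q => |ψ v q|) (i ^ 4) ((i + 1) ^ 4) h with hZ
  have hZ0 : 0 ≤ Z := Finset.sum_nonneg fun _ _ => abs_nonneg _
  have e1 : X ≤ 1 / 2 * ∑ l ∈ Finset.Ico k₀ (Nat.log 2 I), (((1 : ℝ) / 2) ^ l +
      2 ^ l * SS ψ (16 ^ l) (16 ^ (l + 1)) h ^ 2) := by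
    rw [Finset.mul_sum]
    refine (Finset.sum_le_sum fun l _ => ?_).trans (Finset.sum_le_sum_of_subset_of_nonneg
      (Finset.Ico_subset_Ico_right hlog) fun l _ _ => by positivity)
    set s := |SS ψ (16 ^ l) (16 ^ (l + 1)) h| with hs
    rw [← sq_abs (SS ψ (16 ^ l) (16 ^ (l + 1)) h), ← hs]
    have f1 : ((1 : ℝ) / 2) ^ l * 2 ^ l = 1 := by
      rw [← mul_pow]
      norm_num
    have f2 : (0 : ℝ) < 2 ^ l := by positivity
    have f3 : ((1 : ℝ) / 2) ^ l = (2 ^ l : ℝ)⁻¹ := eq_inv_of_mul_eq_one_left f1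
    rw [f3]
    have f4 : 0 ≤ ((2 ^ l : ℝ)⁻¹) * (2 ^ l * s - 1) ^ 2 := by positivity
    have f5 : ((2 ^ l : ℝ)⁻¹) * (2 ^ l * s - 1) ^ 2 = 2 ^ l * s ^ 2 - 2 * s + (2 ^ l : ℝ)⁻¹ := by
      field_simp
      ring
    linarith
  have hmem : i ∈ Finset.Icc (2 ^ k₀) I := Finset.mem_Icc.2 ⟨h1, hiI⟩
  have e2 : Y ^ 2 + Z ^ 2 ≤ ∑ i ∈ Finset.Icc (2 ^ k₀) I, (SS ψ (16 ^ Nat.log 2 i) (i ^ 4) h ^ 2 +
      SS (fun v q => |ψ v q|) (i ^ 4) ((i + 1) ^ 4) h ^ 2) :=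
    Finset.single_le_sum (f := fun i => SS ψ (16 ^ Nat.log 2 i) (i ^ 4) h ^ 2 +
      SS (fun v q => |ψ v q|) (i ^ 4) ((i + 1) ^ 4) h ^ 2) (fun j _ => by positivity) hmem
  have e3 : 3 / ε * X + 9 / ε ^ 2 * (Y ^ 2 + Z ^ 2) ≤ QQ ψ ε k₀ I h := by
    unfold QQ
    have g1 : 3 / ε * X ≤ 3 / ε * (1 / 2 * ∑ l ∈ Finset.Ico k₀ (Nat.log 2 I), (((1 : ℝ) / 2) ^ l +
      2 ^ l * SS ψ (16 ^ l) (16 ^ (l + 1)) h ^ 2)) := mul_le_mul_of_nonneg_left e1 (by positivity)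
    have g2 := mul_le_mul_of_nonneg_left e2 (show (0 : ℝ) ≤ 9 / ε ^ 2 by positivity)
    have g3 : 3 / ε * (1 / 2 * ∑ l ∈ Finset.Ico k₀ (Nat.log 2 I), (((1 : ℝ) / 2) ^ l +
      2 ^ l * SS ψ (16 ^ l) (16 ^ (l + 1)) h ^ 2)) = 3 / (2 * ε) *
      ∑ l ∈ Finset.Ico k₀ (Nat.log 2 I), (((1 : ℝ) / 2) ^ l +
      2 ^ l * SS ψ (16 ^ l) (16 ^ (l + 1)) h ^ 2) := by
      field_simp
    linarith
  refine le_trans ?_ e3
  exact three_cases hε (Finset.sum_nonneg fun _ _ => abs_nonneg _) hZ0 (hb.trans_le h4)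

theorem sum_half (k l : ℕ) : ∑ i ∈ Finset.Ico k l, ((1 : ℝ) / 2) ^ i ≤ 2 * (1 / 2) ^ k := by
  rcases le_total l k with h | h
  · rw [Finset.Ico_eq_empty_of_le h, Finset.sum_empty]
    positivity
  · rw [geom_sum_Ico (by norm_num) h]
    have : (0 : ℝ) < (1 / 2) ^ l := by positivity
    rw [div_le_iff_of_neg (by norm_num)]
    nlinarith

theorem sum_two (k l : ℕ) : ∑ i ∈ Finset.Ico k l, (2 : ℝ) ^ i ≤ 2 ^ l := by
  rcases le_total l k with h | h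
  · rw [Finset.Ico_eq_empty_of_le h, Finset.sum_empty]
    positivity
  · rw [geom_sum_Ico (by norm_num) h]
    have : (0 : ℝ) < 2 ^ k := by positivity
    rw [div_le_iff₀ (by norm_num)]
    nlinarith

theorem sum_inv_sq {a : ℕ} (ha : 1 ≤ a) (I : ℕ) :
    ∑ i ∈ Finset.Icc a I, ((1 : ℝ) / (i : ℝ) ^ 2) ≤ 2 / a := by
  have h1 := sum_Ioo_inv_sq_le (α := ℝ) (a - 1) (I + 1)
  have h2 : Finset.Ioo (a - 1) (I + 1) = Finset.Icc a I := by
    ext x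
    simp only [Finset.mem_Ioo, Finset.mem_Icc]
    omega
  rw [h2] at h1
  have h3 : ((a - 1 : ℕ) : ℝ) + 1 = a := by
    rw [Nat.cast_sub ha]
    push_cast
    ring
  rw [h3] at h1
  simpa only [one_div] using h1

/-- the error term -/
noncomputable def Om (K : Type) [Field K] [NumberField K] (n : ℕ) (κ : Type) [Fintype κ] (C : ℝ)
    (J I N : ℕ) : ℝ := D₀ K n κ C * (16 * (I : ℝ) ^ 4) ^ (2 * J + 4) / (2 * N + 1)

theorem om_le {c I N : ℕ} (h : (c : ℝ) ≤ 16 * (I : ℝ) ^ 4) :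
    D₀ K n κ C * (c : ℝ) ^ (2 * J + 4) / (2 * N + 1) ≤ Om K n κ C J I N := by
  unfold Om
  have := D₀_nonneg (K := K) (n := n) (κ := κ) (C := C)
  gcongr

theorem mean_QQ (H : Small ψ J C) {ε : ℝ} (hε : 0 < ε) (k₀ I N : ℕ) (hI : 1 ≤ I) :
    rmean (bx b n N) (QQ ψ ε k₀ I) ≤
      3 / (2 * ε) * ((1 + (15 * dg K * C + (15 * dg K * C) ^ 2)) * (2 * (1 / 2) ^ k₀) +
        I * Om K n κ C J I N) +
      9 / ε ^ 2 * ((16 * (15 * dg K * C + (15 * dg K * C) ^ 2) +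
        (15 * dg K * C + (15 * dg K * √C) ^ 2)) * (2 * (1 / 2) ^ k₀) +
        2 * I * Om K n κ C J I N) := by
  have hC := H.C0
  have hd := dg_nonneg (K := K)
  have hne := bx_nonempty b n N
  set c₁ : ℝ := 15 * dg K * C + (15 * dg K * C) ^ 2 with hc₁
  set c₂ : ℝ := 15 * dg K * C + (15 * dg K * √C) ^ 2 with hc₂
  have hc₁0 : 0 ≤ c₁ := by positivity
  have hc₂0 : 0 ≤ c₂ := by positivity
  set Ω : ℝ := Om K n κ C J I N with hΩ
  have hΩ0 : 0 ≤ Ω := by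
    have := D₀_nonneg (K := K) (n := n) (κ := κ) (C := C)
    rw [hΩ]
    unfold Om
    positivity
  have h16 : ∀ k : ℕ, (16 : ℕ) ^ k = (2 ^ k) ^ 4 := fun k => by
    rw [← pow_mul, mul_comm, pow_mul]
    norm_num
  have e0 : rmean (bx b n N) (QQ ψ ε k₀ I) =
      3 / (2 * ε) * ∑ l ∈ Finset.Ico k₀ (Nat.log 2 I), (((1 : ℝ) / 2) ^ l +
        2 ^ l * rmean (bx b n N) fun h => SS ψ (16 ^ l) (16 ^ (l + 1)) h ^ 2) +
      9 / ε ^ 2 * ∑ i ∈ Finset.Icc (2 ^ k₀) I,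
        (rmean (bx b n N) (fun h => SS ψ (16 ^ Nat.log 2 i) (i ^ 4) h ^ 2) +
        rmean (bx b n N) (fun h => SS (fun v q => |ψ v q|) (i ^ 4) ((i + 1) ^ 4) h ^ 2)) := by
    unfold QQ
    rw [rmean_add, rmean_smul, rmean_smul, rmean_sum, rmean_sum]
    congr 2
    · refine Finset.sum_congr rfl fun l _ => ?_
      rw [rmean_add, rmean_const hne, rmean_smul]
    · refine Finset.sum_congr rfl fun i _ => ?_
      rw [rmean_add]
  rw [e0]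
  have hI4 : (I : ℝ) ^ 4 ≤ 16 * (I : ℝ) ^ 4 := by
    have : (0 : ℝ) ≤ (I : ℝ) ^ 4 := by positivity
    linarith
  have e1 : ∀ l ∈ Finset.Ico k₀ (Nat.log 2 I), ((1 : ℝ) / 2) ^ l +
      2 ^ l * rmean (bx b n N) (fun h => SS ψ (16 ^ l) (16 ^ (l + 1)) h ^ 2) ≤
      (1 + c₁) * (1 / 2) ^ l + 2 ^ l * Ω := by
    intro l hl
    have hl' := (Finset.mem_Ico.1 hl).2
    have f1 := E_one (b := b) H (a := 16 ^ l) (c := 16 ^ (l + 1)) (by positivity)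
      (Nat.pow_le_pow_right (by norm_num) (Nat.le_succ l)) (by rw [pow_succ, mul_comm]) N
    have f2 : (((16 ^ (l + 1) : ℕ)) : ℝ) ≤ 16 * (I : ℝ) ^ 4 := by
      have g1 : 16 ^ (l + 1) ≤ I ^ 4 := by
        rw [h16]
        refine Nat.pow_le_pow_left ?_ 4
        exact (Nat.pow_le_pow_right (by norm_num) hl').trans (Nat.pow_log_le_self 2 (by omega))
      have g2 : (((16 ^ (l + 1) : ℕ)) : ℝ) ≤ (I : ℝ) ^ 4 := by exact_mod_cast g1
      linarith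
    have f3 := om_le (K := K) (n := n) (κ := κ) (C := C) (J := J) (N := N) f2
    have f4 : rmean (bx b n N) (fun h => SS ψ (16 ^ l) (16 ^ (l + 1)) h ^ 2) ≤
        c₁ / ((16 ^ l : ℕ) : ℝ) + Ω := f1.trans (by linarith)
    have f5 : (2 : ℝ) ^ l * (c₁ / ((16 ^ l : ℕ) : ℝ)) ≤ c₁ * (1 / 2) ^ l := by
      have g1 : (2 : ℝ) ^ l * (c₁ / ((16 ^ l : ℕ) : ℝ)) = c₁ * (1 / 8) ^ l := by
        push_cast
        have : ((1 : ℝ) / 8) ^ l = 2 ^ l / 16 ^ l := by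
          rw [← div_pow]
          norm_num
        rw [this]
        ring
      rw [g1]
      exact mul_le_mul_of_nonneg_left (pow_le_pow_left₀ (by norm_num) (by norm_num) l) hc₁0
    have f6 : (2 : ℝ) ^ l * rmean (bx b n N) (fun h => SS ψ (16 ^ l) (16 ^ (l + 1)) h ^ 2) ≤
        2 ^ l * (c₁ / ((16 ^ l : ℕ) : ℝ) + Ω) := mul_le_mul_of_nonneg_left f4 (by positivity)
    rw [mul_add] at f6
    linarith
  have s2 : ∑ l ∈ Finset.Ico k₀ (Nat.log 2 I), (((1 : ℝ) / 2) ^ l +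
      2 ^ l * rmean (bx b n N) fun h => SS ψ (16 ^ l) (16 ^ (l + 1)) h ^ 2) ≤
      (1 + c₁) * (2 * (1 / 2) ^ k₀) + I * Ω := by
    refine (Finset.sum_le_sum e1).trans ?_
    rw [Finset.sum_add_distrib, ← Finset.mul_sum, ← Finset.sum_mul]
    refine add_le_add ?_ ?_
    · exact mul_le_mul_of_nonneg_left (sum_half _ _) (by positivity)
    · refine mul_le_mul_of_nonneg_right ?_ hΩ0
      refine (sum_two _ _).trans ?_
      exact_mod_cast Nat.pow_log_le_self 2 (show I ≠ 0 by omega)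
  have e2 : ∀ i ∈ Finset.Icc (2 ^ k₀) I,
      rmean (bx b n N) (fun h => SS ψ (16 ^ Nat.log 2 i) (i ^ 4) h ^ 2) +
        rmean (bx b n N) (fun h => SS (fun v q => |ψ v q|) (i ^ 4) ((i + 1) ^ 4) h ^ 2) ≤
      (16 * c₁ + c₂) * (1 / (i : ℝ) ^ 2) + 2 * Ω := by
    intro i hi
    obtain ⟨hi1, hi2⟩ := Finset.mem_Icc.1 hi
    have hi0 : 0 < i := lt_of_lt_of_le (by positivity) hi1
    have hiR : (1 : ℝ) ≤ i := by exact_mod_cast hi0
    have hiI : (i : ℝ) ≤ I := by exact_mod_cast hi2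
    have g1 : 16 ^ Nat.log 2 i ≤ i ^ 4 := by
      rw [h16]
      exact Nat.pow_le_pow_left (Nat.pow_log_le_self 2 hi0.ne') 4
    have g2 : i ^ 4 ≤ 16 * 16 ^ Nat.log 2 i := by
      have h1 : i ≤ 2 ^ (Nat.log 2 i + 1) := (Nat.lt_pow_succ_log_self (by norm_num) i).le
      calc i ^ 4 ≤ (2 ^ (Nat.log 2 i + 1)) ^ 4 := Nat.pow_le_pow_left h1 4
        _ = 16 ^ (Nat.log 2 i + 1) := (h16 _).symm
        _ = _ := by rw [pow_succ, mul_comm]
    have f1 := E_one (b := b) H (a := 16 ^ Nat.log 2 i) (c := i ^ 4) (by positivity) g1 g2 N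
    have f2 : ((i ^ 4 : ℕ) : ℝ) ≤ 16 * (I : ℝ) ^ 4 := by
      push_cast
      exact (pow_le_pow_left₀ (by linarith) hiI 4).trans hI4
    have f3 := om_le (K := K) (n := n) (κ := κ) (C := C) (J := J) (N := N) f2
    have f4 := E_abs (b := b) H hi0 N
    have f5 : (((i + 1) ^ 4 : ℕ) : ℝ) ≤ 16 * (I : ℝ) ^ 4 := by
      push_cast
      have k1 : (i : ℝ) + 1 ≤ 2 * I := by linarith
      calc ((i : ℝ) + 1) ^ 4 ≤ (2 * I) ^ 4 := pow_le_pow_left₀ (by linarith) k1 4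
        _ = _ := by ring
    have f6 := om_le (K := K) (n := n) (κ := κ) (C := C) (J := J) (N := N) f5
    have f7 : c₁ / ((16 ^ Nat.log 2 i : ℕ) : ℝ) ≤ 16 * c₁ * (1 / (i : ℝ) ^ 2) := by
      have k1 : (i : ℝ) ^ 4 ≤ 16 * ((16 ^ Nat.log 2 i : ℕ) : ℝ) := by exact_mod_cast g2
      have k2 : (i : ℝ) ^ 2 ≤ (i : ℝ) ^ 4 := pow_le_pow_right₀ hiR (by norm_num)
      have k3 : (0 : ℝ) < ((16 ^ Nat.log 2 i : ℕ) : ℝ) := by positivity
      rw [mul_one_div, div_le_div_iff₀ k3 (by positivity)]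
      nlinarith
    have f8 : c₂ / (i : ℝ) ^ 2 = c₂ * (1 / (i : ℝ) ^ 2) := by ring
    rw [← hc₂, f8] at f4
    rw [← hc₁] at f1
    linarith
  have s4 : ∑ i ∈ Finset.Icc (2 ^ k₀) I,
        (rmean (bx b n N) (fun h => SS ψ (16 ^ Nat.log 2 i) (i ^ 4) h ^ 2) +
        rmean (bx b n N) (fun h => SS (fun v q => |ψ v q|) (i ^ 4) ((i + 1) ^ 4) h ^ 2)) ≤
      (16 * c₁ + c₂) * (2 * (1 / 2) ^ k₀) + 2 * I * Ω := by
    refine (Finset.sum_le_sum e2).trans ?_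
    rw [Finset.sum_add_distrib, ← Finset.mul_sum, Finset.sum_const, Nat.card_Icc, nsmul_eq_mul]
    refine add_le_add ?_ ?_
    · refine mul_le_mul_of_nonneg_left ((sum_inv_sq (Nat.one_le_two_pow) I).trans
        (le_of_eq ?_)) (by positivity)
      push_cast
      rw [one_div, inv_pow, div_eq_mul_inv]
    · have k1 : ((I + 1 - 2 ^ k₀ : ℕ) : ℝ) ≤ I := by
        have : 0 < 2 ^ k₀ := by positivity
        exact_mod_cast (by omega : I + 1 - 2 ^ k₀ ≤ I)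
      calc ((I + 1 - 2 ^ k₀ : ℕ) : ℝ) * (2 * Ω) ≤ I * (2 * Ω) :=
            mul_le_mul_of_nonneg_right k1 (by positivity)
        _ = _ := by ring
  exact add_le_add (mul_le_mul_of_nonneg_left s2 (by positivity))
    (mul_le_mul_of_nonneg_left s4 (by positivity))

/-- the largest `I` with `I ^ (8 J + 20) ≤ N` -/
noncomputable def II (J N : ℕ) : ℕ := Nat.findGreatest (fun I => I ^ (8 * J + 20) ≤ N) N

theorem II_spec (J N : ℕ) : (II J N) ^ (8 * J + 20) ≤ N :=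
  Nat.findGreatest_spec (P := fun I => I ^ (8 * J + 20) ≤ N) (Nat.zero_le N) (by simp)

theorem le_II {J N i : ℕ} (h : i ^ (8 * J + 20) ≤ N) : i ≤ II J N :=
  Nat.le_findGreatest ((Nat.le_self_pow (by omega) i).trans h) h

theorem II_tendsto (J : ℕ) : Tendsto (II J) atTop atTop := by
  rw [tendsto_atTop_atTop]
  intro M
  exact ⟨M ^ (8 * J + 20), fun N hN => le_II hN⟩

theorem om_tendsto (J : ℕ) : Tendsto (fun N : ℕ => (II J N : ℝ) * Om K n κ C J (II J N) N) atTop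
    (𝓝 0) := by
  have hD := D₀_nonneg (K := K) (n := n) (κ := κ) (C := C)
  have h1 : Tendsto (fun N : ℕ => D₀ K n κ C * 16 ^ (2 * J + 4) / (II J N : ℝ)) atTop (𝓝 0) :=
    Tendsto.div_atTop tendsto_const_nhds (tendsto_natCast_atTop_atTop.comp (II_tendsto J))
  refine tendsto_of_tendsto_of_tendsto_of_le_of_le' tendsto_const_nhds h1
    (Eventually.of_forall fun N => ?_) ?_
  · unfold Om
    positivity
  · filter_upwards [(II_tendsto J).eventually (eventually_ge_atTop 1)] with N hN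
    have hN1 : (1 : ℝ) ≤ II J N := by exact_mod_cast hN
    have h2 : (II J N : ℝ) ^ (8 * J + 20) ≤ N := by exact_mod_cast II_spec J N
    unfold Om
    have h3 : (II J N : ℝ) ^ (8 * J + 18) ≤ N :=
      (pow_le_pow_right₀ hN1 (by omega)).trans h2
    rw [← mul_div_assoc, div_le_div_iff₀ (by positivity) (by positivity)]
    have e1 : (II J N : ℝ) * (D₀ K n κ C * (16 * (II J N : ℝ) ^ 4) ^ (2 * J + 4)) * (II J N : ℝ) =
        D₀ K n κ C * 16 ^ (2 * J + 4) * (II J N : ℝ) ^ (8 * J + 18) := by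
      rw [mul_pow, ← pow_mul]
      ring
    rw [e1]
    refine mul_le_mul_of_nonneg_left ?_ (by positivity)
    linarith

/-- **The maximal inequality.** -/
theorem maximal (H : Small ψ J C) (b : Module.Basis κ ℤ (𝓞 K)) {ε : ℝ} (hε : 0 < ε) :
    ∃ k₁ : ℕ, ∀ k₀, k₁ ≤ k₀ → ∀ᶠ N : ℕ in atTop,
      rmean (bx b n N) (fun h => by
        classical
        exact if ∃ x : ℕ, 16 ^ k₀ ≤ x ∧ x ^ (2 * J + 5) ≤ N ∧ ε < |SS ψ (16 ^ k₀) x h| then 1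
          else 0) ≤ ε := by
  classical
  set c₁ : ℝ := 15 * dg K * C + (15 * dg K * C) ^ 2 with hc₁
  set c₂ : ℝ := 15 * dg K * C + (15 * dg K * √C) ^ 2 with hc₂
  set A : ℝ := 3 / (2 * ε) * ((1 + c₁) * 2) + 9 / ε ^ 2 * ((16 * c₁ + c₂) * 2) with hA
  set B : ℝ := 3 / (2 * ε) + 9 / ε ^ 2 * 2 with hB
  have hC := H.C0
  have hd := dg_nonneg (K := K)
  have hA0 : 0 ≤ A := by positivity
  have hB0 : 0 ≤ B := by positivity
  have t1 : Tendsto (fun k : ℕ => A * ((1 : ℝ) / 2) ^ k) atTop (𝓝 (A * 0)) :=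
    (tendsto_pow_atTop_nhds_zero_of_lt_one (by norm_num) (by norm_num)).const_mul A
  rw [mul_zero] at t1
  obtain ⟨k₁, hk₁⟩ := eventually_atTop.1 (t1.eventually (gt_mem_nhds (half_pos hε)))
  refine ⟨k₁, fun k₀ hk₀ => ?_⟩
  have t2 : Tendsto (fun N : ℕ => B * ((II J N : ℝ) * Om K n κ C J (II J N) N)) atTop
      (𝓝 (B * 0)) := (om_tendsto J).const_mul B
  rw [mul_zero] at t2
  filter_upwards [t2.eventually (gt_mem_nhds (half_pos hε)),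
    (II_tendsto J).eventually (eventually_ge_atTop 1)] with N hN hN1
  have h1 := mean_QQ (b := b) H hε k₀ (II J N) N hN1
  rw [← hc₁, ← hc₂] at h1
  refine le_trans (rmean_mono (g := QQ ψ ε k₀ (II J N)) fun h _ => ?_) (h1.trans ?_)
  · split_ifs with hc
    · obtain ⟨x, hx1, hx2, hx3⟩ := hc
      refine one_le_QQ hε hx1 (fun i hi => le_II ?_) hx3
      calc i ^ (8 * J + 20) = (i ^ 4) ^ (2 * J + 5) := by
            rw [← pow_mul]
            congr 1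
            ring
        _ ≤ x ^ (2 * J + 5) := Nat.pow_le_pow_left hi _
        _ ≤ N := hx2
    · exact QQ_nonneg hε _ _ _
  · have h2 := hk₁ k₀ hk₀
    have e : 3 / (2 * ε) * ((1 + c₁) * (2 * (1 / 2) ^ k₀) + (II J N : ℝ) * Om K n κ C J (II J N) N) +
      9 / ε ^ 2 * ((16 * c₁ + c₂) * (2 * (1 / 2) ^ k₀) +
        2 * (II J N : ℝ) * Om K n κ C J (II J N) N) =
      A * (1 / 2) ^ k₀ + B * ((II J N : ℝ) * Om K n κ C J (II J N) N) := by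
      rw [hA, hB]
      ring
    rw [e]
    linarith

end Pool.Agent.W5h26.HH
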